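import Pool.Agent.Lib.MP_90787a_nt.RF.Main2
import Pool.Agent.Lib.MP_90787a_nt.T.Heights

set_option autoImplicit false

/-!
The height of a cross ratio of four preperiodic points of a rational map is bounded by the total
weight of the map.
-/

namespace Pool.Agent.MP90787a.R

open Finset Polynomial NumberField Height Real Pool.Agent.UBC90787a

section cross

/-- The local estimate. -/
lemma posLog_cross_le {L : Type} [Field L] {v : L → ℝ} (hv0 : ∀ x : L, x ≠ 0 → 0 < v x)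
    (hmul : ∀ x y : L, v (x * y) = v x * v y) (hdiv : ∀ x y : L, v (x / y) = v x / v y)
    {Res : L} {d : ℕ} {μ : L → L} {e : L → ℝ} {t p₀ p₁ p₂ : L}
    (h0 : t ≠ p₀) (h2 : t ≠ p₂) (h10 : p₁ ≠ p₀) (h12 : p₁ ≠ p₂) {M : ℝ}
    (a1 : prE v Res d μ e t p₀ ≤ M) (a2 : prE v Res d μ e p₁ p₂ ≤ M)
    (a3 : prE v Res d μ e t p₂ ≤ M) (a4 : prE v Res d μ e p₁ p₀ ≤ M) :
    log⁺ (v ((t - p₀) * (p₁ - p₂) / ((t - p₂) * (p₁ - p₀)))) ≤
      2 * M - prE v Res d μ e t p₂ - prE v Res d μ e p₁ p₀ := by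
  have n0 := hv0 _ (sub_ne_zero.2 h0)
  have n2 := hv0 _ (sub_ne_zero.2 h2)
  have n10 := hv0 _ (sub_ne_zero.2 h10)
  have n12 := hv0 _ (sub_ne_zero.2 h12)
  have hlog : Real.log (v ((t - p₀) * (p₁ - p₂) / ((t - p₂) * (p₁ - p₀)))) =
      prE v Res d μ e t p₀ + prE v Res d μ e p₁ p₂ - prE v Res d μ e t p₂ -
        prE v Res d μ e p₁ p₀ := by
    rw [hdiv, hmul, hmul, Real.log_div (by positivity) (by positivity),
      Real.log_mul n0.ne' n12.ne', Real.log_mul n2.ne' n10.ne']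
    unfold prE
    ring
  rw [Real.posLog, hlog]
  exact max_le (by linarith) (by linarith)

variable {L : Type} [Field L] [NumberField L]

theorem cross_height {p q : L[X]} {d : ℕ} (hd : 2 ≤ d) (hp : p.natDegree ≤ d)
    (hq : q.natDegree ≤ d) (hres : resultant p q d d ≠ 0) {t p₀ p₁ p₂ : L}
    (h0 : t ≠ p₀) (h2 : t ≠ p₂) (h10 : p₁ ≠ p₀) (h12 : p₁ ≠ p₂)
    (hpre : ∀ x : L, x = t ∨ x = p₀ ∨ x = p₁ ∨ x = p₂ → ∃ i j : ℕ, ∃ μ : L, PData p q d x i j μ)
    (G : Finset (FinitePlace L)) (hG : ∀ v, v ∉ G → finWeight v p q d = 0) :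
    logHeight₁ ((t - p₀) * (p₁ - p₂) / ((t - p₂) * (p₁ - p₀))) ≤
      8 * d * (∑ v ∈ G, finWeight v p q d +
        ∑ w : InfinitePlace L, (w.mult : ℝ) * archWeight w.embedding p q d) +
        2 * ((2 * d + 1) * Real.log 2) * T.wt L := by
  classical
  set Z : Finset L := {t, p₀, p₁, p₂} with hZ
  have hmem : ∀ x, x ∈ Z ↔ x = t ∨ x = p₀ ∨ x = p₁ ∨ x = p₂ := by
    intro x
    simp [hZ]
  have hex : ∀ x : L, ∃ i j : ℕ, ∃ μ : L, x ∈ Z → PData p q d x i j μ := by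
    intro x
    by_cases hx : x ∈ Z
    · obtain ⟨i, j, μ, h⟩ := hpre x ((hmem x).1 hx)
      exact ⟨i, j, μ, fun _ => h⟩
    · exact ⟨0, 0, 0, fun h => absurd h hx⟩
  choose i j μ hdata using hex
  set e : L → ℝ := fun x => (d : ℝ) ^ i x - (d : ℝ) ^ j x with he
  set Res : L := resultant p q d d with hRes
  have ht : t ∈ Z := (hmem _).2 (Or.inl rfl)
  have hp0 : p₀ ∈ Z := (hmem _).2 (Or.inr (Or.inl rfl))
  have hp1 : p₁ ∈ Z := (hmem _).2 (Or.inr (Or.inr (Or.inl rfl)))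
  have hp2 : p₂ ∈ Z := (hmem _).2 (Or.inr (Or.inr (Or.inr rfl)))
  have hfl := fun v : FinitePlace L => (fin_local v hd hp hq hres Z (i := i) (j := j) (μ := μ)
    hdata he hRes).2.1
  have hal := fun w : InfinitePlace L => (arch_local (InfinitePlace.norm_embedding_eq w) hd hp hq
    hres Z (i := i) (j := j) (μ := μ) hdata he hRes).2.1
  set Q := (t - p₀) * (p₁ - p₂) / ((t - p₂) * (p₁ - p₀)) with hT
  have hT0 : Q ≠ 0 := div_ne_zero (mul_ne_zero (sub_ne_zero.2 h0) (sub_ne_zero.2 h12))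
    (mul_ne_zero (sub_ne_zero.2 h2) (sub_ne_zero.2 h10))
  obtain ⟨F0, hF0⟩ := exists_finset_places (K := L)
    (insert Q (insert Res (Z.image μ ∪ (Z ×ˢ Z).image (fun p => p.1 - p.2))))
  have hF0R : ∀ v, v ∉ F0 → v Res = 1 := fun v hv =>
    hF0 v hv _ (Finset.mem_insert_of_mem (Finset.mem_insert_self _ _)) hres
  have hF0T : ∀ v, v ∉ F0 → v Q = 1 := fun v hv =>
    hF0 v hv _ (Finset.mem_insert_self _ _) hT0
  have hF0μ : ∀ v, v ∉ F0 → ∀ x ∈ Z, v (μ x) = 1 := by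
    intro v hv x hx
    refine hF0 v hv _ (Finset.mem_insert_of_mem (Finset.mem_insert_of_mem
      (Finset.mem_union_left _ ?_))) (hdata x hx).2.1
    exact Finset.mem_image_of_mem _ hx
  have hF0X : ∀ v, v ∉ F0 → ∀ x ∈ Z, ∀ y ∈ Z, x ≠ y → v (x - y) = 1 := by
    intro v hv x hx y hy hxy
    refine hF0 v hv _ (Finset.mem_insert_of_mem (Finset.mem_insert_of_mem
      (Finset.mem_union_right _ ?_))) (sub_ne_zero.mpr hxy)
    exact Finset.mem_image.mpr ⟨(x, y), Finset.mem_product.mpr ⟨hx, hy⟩, rfl⟩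
  set F := F0 ∪ G with hF
  have hnF0 : ∀ v, v ∉ F → v ∉ F0 := fun v hv h => hv (Finset.mem_union_left _ h)
  have hpair : ∀ x ∈ Z, ∀ y ∈ Z, x ≠ y →
      ∑ w : InfinitePlace L, (w.mult : ℝ) * prE w Res d μ e x y + ∑ v ∈ F, prE v Res d μ e x y
        = 0 := by
    intro x hx y hy hxy
    exact sum_prE_eq_zero hres hxy (hdata x hx).2.1 (hdata y hy).2.1 F
      (fun v hv => hF0R v (hnF0 v hv)) (fun v hv => hF0X v (hnF0 v hv) x hx y hy hxy)
      (fun v hv => hF0μ v (hnF0 v hv) x hx) (fun v hv => hF0μ v (hnF0 v hv) y hy)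
  have b1 := hpair t ht p₂ hp2 h2
  have b2 := hpair p₁ hp1 p₀ hp0 h10
  rw [T.logHeight₁_eq_sum Q F (fun v hv => (hF0T v (hnF0 v hv)).le)]
  -- finite places
  have c1 : ∑ v ∈ F, log⁺ (v Q) ≤ ∑ v ∈ F, (2 * (4 * d * finWeight v p q d) -
      prE v Res d μ e t p₂ - prE v Res d μ e p₁ p₀) := by
    refine Finset.sum_le_sum fun v _ => ?_
    exact posLog_cross_le (fun x hx => FinitePlace.pos_iff.2 hx) (fun x y => map_mul v x y)
      (fun x y => map_div₀ v x y) h0 h2 h10 h12 (hfl v _ ht _ hp0 h0) (hfl v _ hp1 _ hp2 h12)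
      (hfl v _ ht _ hp2 h2) (hfl v _ hp1 _ hp0 h10)
  -- infinite places
  have c2 : ∑ w : InfinitePlace L, (w.mult : ℝ) * log⁺ (w Q) ≤
      ∑ w : InfinitePlace L, (w.mult : ℝ) * (2 * (4 * d * archWeight w.embedding p q d +
        (2 * d + 1) * Real.log 2) - prE w Res d μ e t p₂ - prE w Res d μ e p₁ p₀) := by
    refine Finset.sum_le_sum fun w _ => ?_
    refine mul_le_mul_of_nonneg_left ?_ (by positivity)
    exact posLog_cross_le (fun x hx => InfinitePlace.pos_iff.2 hx) (fun x y => map_mul w x y)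
      (fun x y => map_div₀ w x y) h0 h2 h10 h12 (hal w _ ht _ hp0 h0) (hal w _ hp1 _ hp2 h12)
      (hal w _ ht _ hp2 h2) (hal w _ hp1 _ hp0 h10)
  have c3 : ∑ v ∈ F, finWeight v p q d = ∑ v ∈ G, finWeight v p q d := by
    rw [hF, Finset.union_comm]
    refine (Finset.sum_subset Finset.subset_union_left fun v _ hv => hG v hv).symm
  have c4 : ∑ v ∈ F, (2 * (4 * d * finWeight v p q d) -
      prE v Res d μ e t p₂ - prE v Res d μ e p₁ p₀) = 8 * d * ∑ v ∈ G, finWeight v p q d -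
        ∑ v ∈ F, prE v Res d μ e t p₂ - ∑ v ∈ F, prE v Res d μ e p₁ p₀ := by
    rw [Finset.sum_sub_distrib, Finset.sum_sub_distrib, ← c3, Finset.mul_sum]
    congr 2
    exact Finset.sum_congr rfl fun v _ => by ring
  have c5 : ∑ w : InfinitePlace L, (w.mult : ℝ) * (2 * (4 * d * archWeight w.embedding p q d +
        (2 * d + 1) * Real.log 2) - prE w Res d μ e t p₂ - prE w Res d μ e p₁ p₀) =
      8 * d * ∑ w : InfinitePlace L, (w.mult : ℝ) * archWeight w.embedding p q d +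
        2 * ((2 * d + 1) * Real.log 2) * T.wt L -
        ∑ w : InfinitePlace L, (w.mult : ℝ) * prE w Res d μ e t p₂ -
        ∑ w : InfinitePlace L, (w.mult : ℝ) * prE w Res d μ e p₁ p₀ := by
    rw [T.wt, Finset.mul_sum, Finset.mul_sum, ← Finset.sum_add_distrib,
      ← Finset.sum_sub_distrib, ← Finset.sum_sub_distrib]
    exact Finset.sum_congr rfl fun w _ => by ring
  rw [c4] at c1
  rw [c5] at c2
  linarith

end cross

end Pool.Agent.MP90787a.R
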