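import Pool.Agent.Lib.MP_90787a_nt.R.Good
import Pool.Agent.Lib.MP_90787a_nt.G.Defs

set_option autoImplicit false

/-!
Cycles of `g (1 / z) + c` at a place with `|c| > 1`: the points of the cycle form a tree.
-/

namespace Pool.Agent.MP90787a.R

open Finset Polynomial Pool.Agent.MP90787a.T

section bad

variable {K : Type} [Field K] (v : AbsoluteValue K ℝ) (hv : IsNonarchimedean v)
  {g : K[X]} {c : K} {d : ℕ}

include hv

/-- The difference quotient. -/
lemma eval_sub_eval (u w : K) : g.eval u - g.eval w = (u - w) *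
    ∑ k ∈ Finset.range g.natDegree, g.coeff (k + 1) *
      ∑ i ∈ Finset.range (k + 1), u ^ i * w ^ (k - i) := by
  have h1 : ∀ z : K, g.eval z = ∑ k ∈ Finset.range g.natDegree, g.coeff (k + 1) * z ^ (k + 1) +
      g.coeff 0 := by
    intro z
    rw [eval_eq_sum_range, Finset.sum_range_succ']
    simp
  rw [h1, h1, add_sub_add_right_eq_sub, ← Finset.sum_sub_distrib, Finset.mul_sum]
  refine Finset.sum_congr rfl fun k _ => ?_
  rw [← mul_sub, mul_left_comm (u - w)]
  congr 1
  exact ((Commute.all u w).mul_geom_sum₂ (k + 1)).symm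

/-- The quotient is small on the unit disc. -/
lemma quot_le_one (hg : ∀ i, v (g.coeff i) ≤ 1) {u w : K} (hu : v u ≤ 1) (hw : v w ≤ 1) :
    v (g.eval u - g.eval w) ≤ v (u - w) := by
  rw [eval_sub_eval v hv, map_mul]
  refine mul_le_of_le_one_right (v.nonneg _) ?_
  refine v_sum_le v hv _ _ zero_le_one fun k _ => ?_
  rw [map_mul]
  refine mul_le_one₀ (hg _) (v.nonneg _) ?_
  refine v_sum_le v hv _ _ zero_le_one fun i _ => ?_
  rw [map_mul, map_pow, map_pow]
  exact mul_le_one₀ (pow_le_one₀ (v.nonneg _) hu) (pow_nonneg (v.nonneg _) _)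
    (pow_le_one₀ (v.nonneg _) hw)

/-- The points outside the open unit disc are attracted. -/
lemma bad_out {N : ℕ} {x : ℕ → K} (h : Cyc g c N x) (hN : 2 ≤ N) (hg : ∀ i, v (g.coeff i) ≤ 1)
    (hc : 1 < v c) (i : ℕ) : v (x i) < 1 := by
  by_contra hcon
  push Not at hcon
  -- one step
  have hone : ∀ j, 1 ≤ v (x j) → v (x (j + 1)) = v c := by
    intro j hj
    rw [h.step]
    have h1 : v (g.eval (x j)⁻¹) ≤ 1 := by
      rw [eval_eq_sum_range]
      refine v_sum_le v hv _ _ zero_le_one fun k _ => ?_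
      rw [map_mul, map_pow, map_inv₀]
      exact mul_le_one₀ (hg _) (by positivity) (pow_le_one₀ (by positivity)
        (inv_le_one_of_one_le₀ hj))
    rw [add_comm]
    exact v_add_of_lt v hv (h1.trans_lt hc)
  have hall : ∀ n, v (x (i + 1 + n)) = v c := by
    intro n
    induction n with
    | zero => exact hone i hcon
    | succ n ih => exact hone (i + 1 + n) (by rw [ih]; exact hc.le)
  have hcp : 0 < v c := one_pos.trans hc
  -- contraction
  have hstep : ∀ n, v (x (i + 1 + n + 1) - x (i + 1 + (n + 1) + 1)) ≤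
      v (x (i + 1 + n) - x (i + 1 + (n + 1))) / (v c * v c) := by
    intro n
    rw [h.step (i + 1 + n), h.step (i + 1 + (n + 1)), add_sub_add_right_eq_sub]
    refine (quot_le_one v hv hg ?_ ?_).trans ?_
    · rw [map_inv₀, hall]
      exact inv_le_one_of_one_le₀ hc.le
    · rw [map_inv₀, hall]
      exact inv_le_one_of_one_le₀ hc.le
    · have e : (x (i + 1 + n))⁻¹ - (x (i + 1 + (n + 1)))⁻¹ =
          (x (i + 1 + (n + 1)) - x (i + 1 + n)) * ((x (i + 1 + n))⁻¹ *
            (x (i + 1 + (n + 1)))⁻¹) := by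
        have a1 := h.ne_zero (i + 1 + n)
        have a2 := h.ne_zero (i + 1 + (n + 1))
        field_simp
      rw [e, map_mul, map_mul, map_inv₀, map_inv₀, hall, hall, v.map_sub, ← mul_inv,
        div_eq_mul_inv]
  set a : ℕ → ℝ := fun n => v (x (i + 1 + n) - x (i + 1 + (n + 1))) with ha
  have ha1 : ∀ n, a (n + 1) ≤ a n / (v c * v c) := hstep
  have hcc : 1 < v c * v c := by nlinarith
  have hmono : ∀ n, a (n + 1) ≤ a n := fun n =>
    (ha1 n).trans (div_le_self (v.nonneg _) hcc.le)
  have hconst := const_of_periodic h.pos hmono (fun n => by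
    simp only [ha]
    have e1 : i + 1 + (n + N) = i + 1 + n + N := by omega
    have e2 : i + 1 + (n + N + 1) = i + 1 + (n + 1) + N := by omega
    rw [e1, e2, h.per, h.per]) 0
  have h0 : a 0 ≤ a 0 / (v c * v c) := by
    have := ha1 0
    rwa [hconst] at this
  have hpos : 0 < a 0 := by
    refine v.pos (sub_ne_zero.2 fun heq => ?_)
    have h1 := h.inj _ _ heq
    have h2 : (0 : ℕ) ≡ 1 [MOD N] := by
      have : i + 1 + 0 + 0 ≡ i + 1 + 0 + 1 [MOD N] := h1
      exact Nat.ModEq.add_left_cancel' _ this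
    have h3 := Nat.modEq_zero_iff_dvd.1 h2.symm
    have := Nat.le_of_dvd one_pos h3
    omega
  have : a 0 / (v c * v c) < a 0 := div_lt_self hpos hcc
  linarith

/-- The leading term dominates outside the unit disc. -/
lemma eval_big (hg : ∀ i, v (g.coeff i) ≤ 1) (hlc : v g.leadingCoeff = 1)
    (hd : g.natDegree = d) (hd1 : 1 ≤ d) {u : K} (hu : 1 < v u) :
    v (g.eval u - g.leadingCoeff * u ^ d) ≤ v u ^ (d - 1) := by
  have h1 : g.eval u - g.leadingCoeff * u ^ d = ∑ i ∈ Finset.range d, g.coeff i * u ^ i := by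
    rw [eval_eq_sum_range, hd, Finset.sum_range_succ, Polynomial.leadingCoeff, hd]
    ring
  rw [h1]
  refine v_sum_le v hv _ _ (by positivity) fun i hi => ?_
  have hi' := Finset.mem_range.1 hi
  rw [map_mul, map_pow]
  refine (mul_le_of_le_one_left (by positivity) (hg i)).trans ?_
  exact pow_le_pow_right₀ hu.le (by omega)

/-- One step inside the filled Julia set at a place with `|c| > 1`. -/
lemma bad_abs (hg : ∀ i, v (g.coeff i) ≤ 1) (hlc : v g.leadingCoeff = 1)
    (hc : 1 < v c) (hd : g.natDegree = d) (hd1 : 1 ≤ d) {x : K} (hx0 : x ≠ 0) (hx : v x < 1)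
    (hx' : v (g.eval x⁻¹ + c) < 1) : v x ^ d * v c = 1 ∧
      v (g.leadingCoeff * x⁻¹ ^ d + c) ≤ v x⁻¹ ^ (d - 1) := by
  have hpos := v.pos hx0
  have hu : 1 < v x⁻¹ := by
    rw [map_inv₀]
    exact (one_lt_inv₀ hpos).2 hx
  have h1 := eval_big v hv hg hlc hd hd1 hu
  have h2 : v (g.leadingCoeff * x⁻¹ ^ d + c) ≤ v x⁻¹ ^ (d - 1) := by
    have e : g.leadingCoeff * x⁻¹ ^ d + c = (g.eval x⁻¹ + c) -
      (g.eval x⁻¹ - g.leadingCoeff * x⁻¹ ^ d) := by ring
    rw [e]
    refine (av_sub_le v hv _ _).trans (max_le ?_ h1)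
    exact hx'.le.trans (one_le_pow₀ hu.le)
  refine ⟨?_, h2⟩
  have h3 : v (g.leadingCoeff * x⁻¹ ^ d) = v x⁻¹ ^ d := by rw [map_mul, map_pow, hlc, one_mul]
  have h4 : v x⁻¹ ^ (d - 1) < v x⁻¹ ^ d := pow_lt_pow_right₀ hu (by omega)
  have h5 : v c = v x⁻¹ ^ d := by
    have e : c = (g.leadingCoeff * x⁻¹ ^ d + c) - g.leadingCoeff * x⁻¹ ^ d := by ring
    conv_lhs => rw [e]
    rw [v_sub_of_lt' v hv (by rw [h3]; exact h2.trans_lt h4), h3]
  rw [h5, map_inv₀, inv_pow, mul_inv_cancel₀]
  positivity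

/-- Two points in one branch. -/
lemma bad_pair (hg : ∀ i, v (g.coeff i) ≤ 1) (hlc : v g.leadingCoeff = 1)
    (hvd : v (d : K) = 1) (hd : g.natDegree = d) (hd1 : 1 ≤ d) {r : ℝ}
    (hr1 : r < 1) {x y : K} (hx0 : x ≠ 0) (hy0 : y ≠ 0)
    (hx : v x = r) (hy : v y = r) (hxy : v (x - y) < r) :
    v ((g.eval x⁻¹ + c) - (g.eval y⁻¹ + c)) = r⁻¹ ^ (d + 1) * v (x - y) := by
  have hr0 : 0 < r := by rw [← hx]; exact v.pos hx0
  set u := x⁻¹ with hu
  set w := y⁻¹ with hw
  set R := r⁻¹ with hR
  have hR0 : 0 < R := inv_pos.2 hr0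
  have hR1 : 1 < R := (one_lt_inv₀ hr0).2 hr1
  have hvu : v u = R := by rw [hu, map_inv₀, hx]
  have hvw : v w = R := by rw [hw, map_inv₀, hy]
  have huw : v (u - w) = R ^ 2 * v (x - y) := by
    have e : u - w = (y - x) * (u * w) := by rw [hu, hw]; field_simp
    rw [e, map_mul, map_mul, hvu, hvw, v.map_sub]
    ring
  have huw' : v (u - w) < R := by
    rw [huw]
    calc R ^ 2 * v (x - y) < R ^ 2 * r := by gcongr
      _ = R := by rw [hR]; field_simp
  rw [add_sub_add_right_eq_sub, eval_sub_eval v hv, map_mul, hd]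
  -- the quotient has absolute value `R ^ (d - 1)`
  have hq : v (∑ k ∈ Finset.range d, g.coeff (k + 1) *
      ∑ i ∈ Finset.range (k + 1), u ^ i * w ^ (k - i)) = R ^ (d - 1) := by
    obtain ⟨e, rfl⟩ : ∃ e, d = e + 1 := ⟨d - 1, by omega⟩
    rw [Finset.sum_range_succ, Nat.add_sub_cancel]
    have hlow : v (∑ k ∈ Finset.range e, g.coeff (k + 1) *
        ∑ i ∈ Finset.range (k + 1), u ^ i * w ^ (k - i)) < R ^ e := by
      rcases Nat.eq_zero_or_pos e with he | he
      · subst he
        simp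
      · have h1 : v (∑ k ∈ Finset.range e, g.coeff (k + 1) *
          ∑ i ∈ Finset.range (k + 1), u ^ i * w ^ (k - i)) ≤ R ^ (e - 1) := by
          refine v_sum_le v hv _ _ (by positivity) fun k hk => ?_
          have hk' := Finset.mem_range.1 hk
          rw [map_mul]
          refine (mul_le_of_le_one_left (v.nonneg _) (hg _)).trans ?_
          refine v_sum_le v hv _ _ (by positivity) fun i hi => ?_
          have hi' := Finset.mem_range.1 hi
          rw [map_mul, map_pow, map_pow, hvu, hvw, ← pow_add]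
          exact pow_le_pow_right₀ hR1.le (by omega)
        exact h1.trans_lt (pow_lt_pow_right₀ hR1 (by omega))
    have htop : v (g.coeff (e + 1) * ∑ i ∈ Finset.range (e + 1), u ^ i * w ^ (e - i)) =
        R ^ e := by
      rw [map_mul]
      have h1 : v (g.coeff (e + 1)) = 1 := by rw [← hd]; exact hlc
      rw [h1, one_mul]
      have h2 : ∑ i ∈ Finset.range (e + 1), u ^ i * w ^ (e - i) =
          ((e + 1 : ℕ) : K) * w ^ e + ∑ i ∈ Finset.range (e + 1), (u ^ i - w ^ i) * w ^ (e - i) := by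
        have : ((e + 1 : ℕ) : K) * w ^ e = ∑ i ∈ Finset.range (e + 1), w ^ i * w ^ (e - i) := by
          rw [Finset.sum_congr rfl (fun i hi => ?_), Finset.sum_const, Finset.card_range,
            nsmul_eq_mul]
          rw [← pow_add]
          congr 1
          have := Finset.mem_range.1 hi
          omega
        rw [this, ← Finset.sum_add_distrib]
        exact Finset.sum_congr rfl fun i _ => by ring
      rw [h2]
      have h3 : v (((e + 1 : ℕ) : K) * w ^ e) = R ^ e := by
        rw [map_mul, hvd, one_mul, map_pow, hvw]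
      rw [v_add_of_lt v hv, h3]
      rw [h3]
      have h4 : v (∑ i ∈ Finset.range (e + 1), (u ^ i - w ^ i) * w ^ (e - i)) ≤
          v (u - w) * R ^ e / R := by
        refine v_sum_le v hv _ _ (by positivity) fun i hi => ?_
        have hi' := Finset.mem_range.1 hi
        rcases Nat.eq_zero_or_pos i with hi0 | hi0
        · subst hi0
          simp only [pow_zero, sub_self, zero_mul, map_zero]
          positivity
        · obtain ⟨m, rfl⟩ : ∃ m, i = m + 1 := ⟨i - 1, by omega⟩
          have e1 : u ^ (m + 1) - w ^ (m + 1) = (u - w) *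
              ∑ j ∈ Finset.range (m + 1), u ^ j * w ^ (m - j) :=
            ((Commute.all u w).mul_geom_sum₂ (m + 1)).symm
          have e2 : v (∑ j ∈ Finset.range (m + 1), u ^ j * w ^ (m - j)) ≤ R ^ m := by
            refine v_sum_le v hv _ _ (by positivity) fun j hj => ?_
            have hj' := Finset.mem_range.1 hj
            rw [map_mul, map_pow, map_pow, hvu, hvw, ← pow_add]
            exact pow_le_pow_right₀ hR1.le (by omega)
          rw [e1, map_mul, map_mul, map_pow, hvw]
          have e3 : R ^ e / R = R ^ m * R ^ (e - (m + 1)) := by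
            rw [← pow_add, div_eq_iff hR0.ne', ← pow_succ]
            congr 1
            omega
          rw [mul_div_assoc, e3, mul_assoc]
          gcongr
      refine h4.trans_lt ?_
      rw [mul_div_assoc, mul_div_left_comm]
      calc R ^ e * (v (u - w) / R) < R ^ e * 1 := by
            gcongr
            rwa [div_lt_one hR0]
        _ = R ^ e := mul_one _
    rw [add_comm, v_add_of_lt v hv (by rw [htop]; exact hlow), htop]
  rw [hq, huw]
  have : d + 1 = 2 + (d - 1) := by omega
  rw [this, pow_add]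
  ring

/-- There are at most `d` branches. -/
lemma bad_branches (hg : ∀ i, v (g.coeff i) ≤ 1) (hlc : v g.leadingCoeff = 1)
    (hc : 1 < v c) (hd : g.natDegree = d) (hd1 : 1 ≤ d) {r : ℝ} (t : Fin (d + 1) → K)
    (ht0 : ∀ i, t i ≠ 0) (ht : ∀ i, v (t i) = r) (hr1 : r < 1)
    (ht' : ∀ i, v (g.eval (t i)⁻¹ + c) < 1) (hdist : ∀ i j, i ≠ j → v (t i - t j) = r) :
    False := by
  have hr0 : 0 < r := by rw [← ht 0]; exact v.pos (ht0 0)
  set R := r⁻¹ with hR
  have hR0 : 0 < R := inv_pos.2 hr0
  have hR1 : 1 < R := (one_lt_inv₀ hr0).2 hr1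
  set s : Fin (d + 1) → K := fun i => (t i)⁻¹ * t 0 with hs
  have hs1 : ∀ i, v (s i) = 1 := by
    intro i
    simp only [hs]
    rw [map_mul, map_inv₀, ht, ht, inv_mul_cancel₀ hr0.ne']
  refine monic_few v hv (X ^ d - 1 : K[X]) (monic_X_pow_sub_C 1 (by omega)) ?_ ?_ s
    (fun i => (hs1 i).le) ?_ ?_
  · have := natDegree_X_pow_sub_C (n := d) (r := (1 : K))
    rwa [map_one] at this
  · intro i
    rw [coeff_sub, coeff_X_pow, coeff_one]
    refine (av_sub_le v hv _ _).trans (max_le ?_ ?_)
    · split_ifs <;> simp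
    · split_ifs <;> simp
  · intro i j hij
    have e : s i - s j = (t j - t i) * ((t i)⁻¹ * (t j)⁻¹ * t 0) := by
      have a1 := ht0 i
      have a2 := ht0 j
      simp only [hs]
      field_simp
    rw [e, map_mul, hdist j i (Ne.symm hij), map_mul, map_mul, map_inv₀, map_inv₀, ht, ht, ht]
    field_simp
  · intro i
    have h1 := (bad_abs v hv hg hlc hc hd hd1 (ht0 i) (by rw [ht]; exact hr1) (ht' i)).2
    have h2 := (bad_abs v hv hg hlc hc hd hd1 (ht0 0) (by rw [ht]; exact hr1) (ht' 0)).2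
    rw [map_inv₀, ht] at h1 h2
    have h3 : v (g.leadingCoeff * ((t i)⁻¹ ^ d - (t 0)⁻¹ ^ d)) ≤ R ^ (d - 1) := by
      have e : g.leadingCoeff * ((t i)⁻¹ ^ d - (t 0)⁻¹ ^ d) =
        (g.leadingCoeff * (t i)⁻¹ ^ d + c) - (g.leadingCoeff * (t 0)⁻¹ ^ d + c) := by ring
      rw [e]
      exact (av_sub_le v hv _ _).trans (max_le h1 h2)
    rw [map_mul, hlc, one_mul] at h3
    have e : eval (s i) (X ^ d - 1 : K[X]) = ((t i)⁻¹ ^ d - (t 0)⁻¹ ^ d) * t 0 ^ d := by
      have a2 := ht0 0
      simp only [eval_sub, eval_pow, eval_X, eval_one, hs, mul_pow, sub_mul]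
      rw [inv_pow (t 0), inv_mul_cancel₀ (pow_ne_zero _ a2)]
    rw [e, map_mul, map_pow, ht]
    calc v ((t i)⁻¹ ^ d - (t 0)⁻¹ ^ d) * r ^ d ≤ R ^ (d - 1) * r ^ d := by gcongr
      _ = r := by
          have : r ^ d = r ^ (d - 1) * r := by rw [← pow_succ, Nat.sub_add_cancel hd1]
          rw [this, hR, inv_pow, ← mul_assoc, inv_mul_cancel₀ (by positivity), one_mul]
      _ < 1 := hr1

/-- The points of a cycle form a tree at a place with `|c| > 1`. -/
theorem bad_tree {N : ℕ} {x : ℕ → K} (h : Cyc g c N x) (hN : 2 ≤ N)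
    (hg : ∀ i, v (g.coeff i) ≤ 1) (hlc : v g.leadingCoeff = 1) (hvd : v (d : K) = 1)
    (hc : 1 < v c) (hd : g.natDegree = d) (hd1 : 1 ≤ d) :
    v (x 0) ^ d * v c = 1 ∧
    G.Tree v (Set.range x) (v (x 0)) (v (x 0)⁻¹ ^ (d + 1)) d := by
  have hlt := bad_out v hv h hN hg hc
  have habs : ∀ i, v (x i) ^ d * v c = 1 := fun i =>
    (bad_abs v hv hg hlc hc hd hd1 (h.ne_zero i) (hlt i) (by
      have := hlt (i + 1)
      rwa [h.step] at this)).1
  have hcp : 0 < v c := one_pos.trans hc
  have heq : ∀ i, v (x i) = v (x 0) := by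
    intro i
    have h1 : v (x i) ^ d = v (x 0) ^ d := by
      have := (habs i).trans (habs 0).symm
      exact mul_right_cancel₀ hcp.ne' this
    exact (pow_left_inj₀ (v.nonneg _) (v.nonneg _) (by omega)).1 h1
  refine ⟨habs 0, ?_⟩
  set r := v (x 0) with hr
  have hr0 : 0 < r := v.pos (h.ne_zero 0)
  have hr1 : r < 1 := hlt 0
  set ρ := v (x 0)⁻¹ ^ (d + 1) with hρ
  have hρ' : ρ = r⁻¹ ^ (d + 1) := by rw [hρ, map_inv₀]
  have hρ1 : 1 < ρ := by
    rw [hρ']
    exact one_lt_pow₀ ((one_lt_inv₀ hr0).2 hr1) (by omega)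
  have hρ0 : 0 < ρ := one_pos.trans hρ1
  have hle : ∀ i j, v (x i - x j) ≤ r := fun i j =>
    (av_sub_le v hv _ _).trans (max_le (heq i).le (heq j).le)
  have hstep : ∀ i j, v (x i - x j) < r → v (x (i + 1) - x (j + 1)) = ρ * v (x i - x j) := by
    intro i j hij
    rw [h.step, h.step, hρ']
    exact bad_pair v hv hg hlc hvd hd hd1 hr1 (h.ne_zero i) (h.ne_zero j) (heq i) (heq j) hij
  -- several steps
  have hsteps : ∀ n i j, v (x i - x j) * ρ ^ n ≤ r →
      v (x (i + n) - x (j + n)) = v (x i - x j) * ρ ^ n := by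
    intro n
    induction n with
    | zero => intro i j _; simp
    | succ n ih =>
      intro i j hij
      have h1 : v (x i - x j) * ρ ^ n ≤ r := by
        refine le_trans ?_ hij
        rw [pow_succ, ← mul_assoc]
        exact le_mul_of_one_le_right (by positivity) hρ1.le
      have h2 := ih i j h1
      rcases eq_or_ne (x i) (x j) with he | he
      · have h3 : x (i + (n + 1)) = x (j + (n + 1)) := h.mod_eq ((h.inj _ _ he).add_right _)
        rw [h3, he]
        simp
      · have hpos : 0 < v (x i - x j) := v.pos (sub_ne_zero.2 he)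
        have h3 : v (x (i + n) - x (j + n)) < r := by
          rw [h2]
          refine lt_of_lt_of_le ?_ hij
          rw [pow_succ, ← mul_assoc]
          exact lt_mul_of_one_lt_right (by positivity) hρ1
        have h4 := hstep _ _ h3
        rw [← Nat.add_assoc, ← Nat.add_assoc, h4, h2, pow_succ]
        ring
  refine ⟨hr0, hρ1, ?_, ?_⟩
  · rintro _ ⟨i, rfl⟩ _ ⟨j, rfl⟩ hne
    have hpos : 0 < v (x i - x j) := v.pos (sub_ne_zero.2 hne)
    -- the last `k` with `v (x i - x j) ρ ^ k ≤ r`
    obtain ⟨m, hm⟩ : ∃ m : ℕ, r < v (x i - x j) * ρ ^ m := by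
      obtain ⟨m, hm⟩ := pow_unbounded_of_one_lt (r / v (x i - x j)) hρ1
      refine ⟨m, ?_⟩
      rwa [div_lt_iff₀' hpos] at hm
    have hex : ∃ m : ℕ, r < v (x i - x j) * ρ ^ m := ⟨m, hm⟩
    classical
    set m := Nat.find hex with hmdef
    have hm1 : r < v (x i - x j) * ρ ^ m := Nat.find_spec hex
    have hm0 : m ≠ 0 := by
      intro h0
      rw [h0, pow_zero, mul_one] at hm1
      exact absurd (hle i j) (not_le.2 hm1)
    obtain ⟨k, hk⟩ : ∃ k, m = k + 1 := ⟨m - 1, by omega⟩
    have hk1 : v (x i - x j) * ρ ^ k ≤ r := by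
      have := Nat.find_min hex (m := k) (by omega)
      push Not at this
      exact this
    refine ⟨k, le_antisymm hk1 ?_⟩
    by_contra hlt'
    push Not at hlt'
    have h1 := hsteps k i j hk1
    have h2 := hstep (i + k) (j + k) (by rw [h1]; exact hlt')
    have h3 := hle (i + k + 1) (j + k + 1)
    rw [h2, h1] at h3
    rw [hk, pow_succ, ← mul_assoc, mul_comm] at hm1
    exact absurd h3 (not_le.2 hm1)
  · -- the colouring
    obtain ⟨c0, hc0⟩ := exists_colouring (Set.range x) (fun a b => v (a - b) < r)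
      (d := d) (by omega) (fun a _ b _ hab => by rwa [v.map_sub]) (fun a _ b _ e _ h1 h2 => by
        have := hv (a - b) (b - e)
        rw [sub_add_sub_cancel] at this
        exact this.trans_lt (max_lt h1 h2)) (fun t ht hdist => by
        choose n hn using ht
        refine bad_branches v hv hg hlc hc hd hd1 t (r := r) ?_ ?_ hr1 ?_ ?_
        · intro i
          rw [← hn]
          exact h.ne_zero _
        · intro i
          rw [← hn]
          exact heq _
        · intro i
          rw [← hn, ← h.step]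
          exact hlt _
        · intro i j hij
          refine le_antisymm ?_ (not_lt.1 (hdist i j hij))
          rw [← hn i, ← hn j]
          exact hle _ _)
    rintro p hp k
    classical
    -- the map of the set of points
    let F : K → K := fun z => g.eval z⁻¹ + c
    have hF : ∀ n i, F^[n] (x i) = x (i + n) := by
      intro n
      induction n with
      | zero => intro i; rfl
      | succ n ih =>
        intro i
        rw [Function.iterate_succ_apply', ih]
        exact (h.step (i + n)).symm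
    refine ⟨fun z => c0 (F^[k] z), ?_⟩
    rintro _ ⟨i, rfl⟩ _ ⟨j, rfl⟩ h1 h2 h3
    have h3' : c0 (x (i + k)) = c0 (x (j + k)) := by
      simp only [hF] at h3
      exact h3
    have h4 := hc0 _ ⟨i + k, rfl⟩ _ ⟨j + k, rfl⟩ h3'
    have h5 : v (x i - x j) * ρ ^ k ≤ r := by
      have h6 : v (x i - x j) ≤ max (v (x i - p)) (v (x j - p)) := by
        have := av_sub_le v hv (x i - p) (x j - p)
        rwa [sub_sub_sub_cancel_right] at this
      calc v (x i - x j) * ρ ^ k ≤ max (v (x i - p)) (v (x j - p)) * ρ ^ k := by gcongr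
        _ = max (v (x i - p) * ρ ^ k) (v (x j - p) * ρ ^ k) :=
          max_mul_of_nonneg _ _ (by positivity)
        _ ≤ r := max_le h1 h2
    rwa [hsteps k i j h5] at h4

end bad

end Pool.Agent.MP90787a.R
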