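import Pool.Agent.Lib.MP_90787a_nt.R.Ultra

set_option autoImplicit false

/-!
Cycles of `g (1 / z) + c` at a place of good reduction: the chordal distance of two points of the
cycle only depends on the greatest common divisor of the difference of the indices and the length.
-/

namespace Pool.Agent.MP90787a.R

open Finset Polynomial Pool.Agent.MP90787a.T

/-- Cycles of length `N` of the map `z ↦ g (1 / z) + c` which avoid `0` and `∞`. -/
structure Cyc {K : Type} [Field K] (g : K[X]) (c : K) (N : ℕ) (x : ℕ → K) : Prop where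
  pos : 0 < N
  ne_zero : ∀ i, x i ≠ 0
  step : ∀ i, x (i + 1) = g.eval (x i)⁻¹ + c
  per : ∀ i, x (i + N) = x i
  inj : ∀ i j, x i = x j → i ≡ j [MOD N]

section cyc

variable {K : Type} [Field K] {g : K[X]} {c : K} {N : ℕ} {x : ℕ → K}

lemma Cyc.mod_eq (h : Cyc g c N x) {i j : ℕ} (hij : i ≡ j [MOD N]) : x i = x j := by
  have key : ∀ i, x i = x (i % N) := by
    intro i
    conv_lhs => rw [← Nat.mod_add_div i N, Nat.mul_comm N]
    have : ∀ t k, x (k + t * N) = x k := by
      intro t
      induction t with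
      | zero => intro k; simp
      | succ t ih => intro k; rw [Nat.succ_mul, ← Nat.add_assoc, h.per, ih]
    exact this _ _
  rw [key i, key j, hij]

lemma Cyc.map {L : Type} [Field L] (φ : K →+* L) (h : Cyc g c N x) :
    Cyc (g.map φ) (φ c) N (fun i => φ (x i)) where
  pos := h.pos
  ne_zero i := (map_ne_zero φ).2 (h.ne_zero i)
  step i := by rw [h.step, map_add, ← map_inv₀, eval_map, eval₂_at_apply]
  per i := by rw [h.per]
  inj i j hij := h.inj i j (φ.injective hij)

end cyc

section chord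

variable {K : Type} [Field K] (v : AbsoluteValue K ℝ)

/-- The chordal distance. -/
noncomputable def ch (a b : K) : ℝ := v (a - b) / (max 1 (v a) * max 1 (v b))

lemma max_pos (a : K) : 0 < max 1 (v a) := lt_of_lt_of_le one_pos (le_max_left _ _)

lemma ch_nonneg (a b : K) : 0 ≤ ch v a b :=
  div_nonneg (v.nonneg _) (mul_pos (max_pos v a) (max_pos v b)).le

lemma ch_self (a : K) : ch v a a = 0 := by simp [ch]

lemma ch_comm (a b : K) : ch v a b = ch v b a := by
  rw [ch, ch, v.map_sub, mul_comm (max 1 (v a))]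

lemma eq_ch_mul (a b : K) : v (a - b) = ch v a b * (max 1 (v a) * max 1 (v b)) := by
  rw [ch, div_mul_cancel₀]
  exact (mul_pos (max_pos v a) (max_pos v b)).ne'

variable (hv : IsNonarchimedean v)

include hv

/-- The ultrametric inequality for the chordal distance. -/
lemma ch_le (a b e : K) : ch v a e ≤ max (ch v a b) (ch v b e) := by
  have ha := max_pos v a
  have hb := max_pos v b
  have he := max_pos v e
  -- it suffices to bound `v (a - e) * max 1 (v b)`
  have key : v (a - e) * max 1 (v b) ≤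
      max (v (a - b) * max 1 (v e)) (v (b - e) * max 1 (v a)) := by
    rw [mul_max_of_nonneg _ _ (v.nonneg _), mul_one]
    refine max_le ?_ ?_
    · calc v (a - e) ≤ max (v (a - b)) (v (b - e)) := by
            have := hv (a - b) (b - e)
            rwa [sub_add_sub_cancel] at this
        _ ≤ _ := max_le_max (le_mul_of_one_le_right (v.nonneg _) (le_max_left _ _))
            (le_mul_of_one_le_right (v.nonneg _) (le_max_left _ _))
    · rw [← map_mul]
      have h1 : (a - e) * b = (b - e) * a - (b - a) * e := by ring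
      rw [h1]
      refine (av_sub_le v hv _ _).trans ?_
      rw [map_mul, map_mul, max_comm, v.map_sub b a]
      exact max_le_max (mul_le_mul_of_nonneg_left (le_max_right _ _) (v.nonneg _))
        (mul_le_mul_of_nonneg_left (le_max_right _ _) (v.nonneg _))
  have h1 : ch v a e = v (a - e) * max 1 (v b) / (max 1 (v a) * max 1 (v b) * max 1 (v e)) := by
    rw [ch]
    field_simp
  have h2 : ch v a b = v (a - b) * max 1 (v e) / (max 1 (v a) * max 1 (v b) * max 1 (v e)) := by
    rw [ch]
    field_simp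
  have h3 : ch v b e = v (b - e) * max 1 (v a) / (max 1 (v a) * max 1 (v b) * max 1 (v e)) := by
    rw [ch]
    field_simp
  rw [h1, h2, h3, max_div_div_right (by positivity)]
  exact div_le_div_of_nonneg_right key (by positivity)

end chord

section good

variable {K : Type} [Field K] (v : AbsoluteValue K ℝ) (hv : IsNonarchimedean v)
  {g : K[X]} {c : K} {d : ℕ}

include hv

/-- Values of the homogenised polynomial. -/
lemma good_norm (hg : ∀ i, v (g.coeff i) ≤ 1) (hlc : v g.leadingCoeff = 1) (hc : v c ≤ 1)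
    (hd : g.natDegree = d) (hd1 : 1 ≤ d) {x : K} (hx : x ≠ 0) :
    v x ^ d * max 1 (v (g.eval x⁻¹ + c)) = max 1 (v x) ^ d := by
  have hx0 : 0 < v x := v.pos hx
  -- `x ^ d g (1 / x)` as a sum
  have hsum : x ^ d * g.eval x⁻¹ = ∑ i ∈ Finset.range (d + 1), g.coeff i * x ^ (d - i) := by
    rw [eval_eq_sum_range, hd, Finset.mul_sum]
    refine Finset.sum_congr rfl fun i hi => ?_
    have hi' : i ≤ d := Nat.lt_succ_iff.1 (Finset.mem_range.1 hi)
    have h1 : x ^ d = x ^ (d - i) * x ^ i := by rw [← pow_add, Nat.sub_add_cancel hi']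
    rw [h1, inv_pow]
    field_simp
  have hexp : v x ^ d * max 1 (v (g.eval x⁻¹ + c)) = max (v x ^ d)
      (v (x ^ d * g.eval x⁻¹ + c * x ^ d)) := by
    rw [mul_max_of_nonneg _ _ (pow_nonneg hx0.le _), mul_one, ← map_pow, ← map_mul]
    congr 2
    ring
  rw [hexp, hsum]
  rcases lt_trichotomy (v x) 1 with h | h | h
  · -- `|x| < 1`
    have h1 : v (∑ i ∈ Finset.range (d + 1), g.coeff i * x ^ (d - i) + c * x ^ d) = 1 := by
      rw [Finset.sum_range_succ, Nat.sub_self, pow_zero, mul_one]
      have h2 : v (∑ i ∈ Finset.range d, g.coeff i * x ^ (d - i)) ≤ v x := by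
        refine v_sum_le v hv _ _ hx0.le fun i hi => ?_
        have hi' := Finset.mem_range.1 hi
        rw [map_mul, map_pow]
        calc v (g.coeff i) * v x ^ (d - i) ≤ 1 * v x ^ (d - i) :=
              mul_le_mul_of_nonneg_right (hg i) (by positivity)
          _ = v x ^ (d - i) := one_mul _
          _ ≤ v x ^ 1 := pow_le_pow_of_le_one hx0.le h.le (by omega)
          _ = v x := pow_one _
      have h3 : v (c * x ^ d) ≤ v x := by
        rw [map_mul, map_pow]
        calc v c * v x ^ d ≤ 1 * v x ^ d := mul_le_mul_of_nonneg_right hc (by positivity)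
          _ = v x ^ d := one_mul _
          _ ≤ v x ^ 1 := pow_le_pow_of_le_one hx0.le h.le hd1
          _ = v x := pow_one _
      have h4 : v (g.coeff d) = 1 := by rw [← hd]; exact hlc
      have h5 : ∑ i ∈ Finset.range d, g.coeff i * x ^ (d - i) + g.coeff d + c * x ^ d =
          g.coeff d + (∑ i ∈ Finset.range d, g.coeff i * x ^ (d - i) + c * x ^ d) := by ring
      rw [h5, v_add_of_lt v hv, h4]
      rw [h4]
      exact ((hv _ _).trans (max_le h2 h3)).trans_lt h
    rw [h1, max_eq_left h.le, one_pow, max_eq_right (pow_le_one₀ hx0.le h.le)]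
  · have h1 : v (∑ i ∈ Finset.range (d + 1), g.coeff i * x ^ (d - i) + c * x ^ d) ≤ 1 := by
      refine (hv _ _).trans (max_le ?_ ?_)
      · refine v_sum_le v hv _ _ zero_le_one fun i _ => ?_
        rw [map_mul, map_pow, h, one_pow, mul_one]
        exact hg i
      · rw [map_mul, map_pow, h, one_pow, mul_one]
        exact hc
    rw [h, one_pow, max_eq_left h1, max_self, one_pow]
  · have h1 : v (∑ i ∈ Finset.range (d + 1), g.coeff i * x ^ (d - i) + c * x ^ d) ≤ v x ^ d := by
      refine (hv _ _).trans (max_le ?_ ?_)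
      · refine v_sum_le v hv _ _ (by positivity) fun i _ => ?_
        rw [map_mul, map_pow]
        calc v (g.coeff i) * v x ^ (d - i) ≤ 1 * v x ^ (d - i) :=
              mul_le_mul_of_nonneg_right (hg i) (by positivity)
          _ = v x ^ (d - i) := one_mul _
          _ ≤ v x ^ d := pow_le_pow_right₀ h.le (by omega)
      · rw [map_mul, map_pow]
        exact mul_le_of_le_one_left (by positivity) hc
    rw [max_eq_left h1, max_eq_right h.le]

/-- The map does not increase chordal distances at a place of good reduction. -/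
lemma good_step (hg : ∀ i, v (g.coeff i) ≤ 1) (hlc : v g.leadingCoeff = 1) (hc : v c ≤ 1)
    (hd : g.natDegree = d) (hd1 : 1 ≤ d) {x y : K} (hx : x ≠ 0) (hy : y ≠ 0) :
    ch v (g.eval x⁻¹ + c) (g.eval y⁻¹ + c) ≤ ch v x y := by
  have hx0 : 0 < v x := v.pos hx
  have hy0 : 0 < v y := v.pos hy
  have hMx := max_pos v x
  have hMy := max_pos v y
  have nx := good_norm v hv hg hlc hc hd hd1 hx
  have ny := good_norm v hv hg hlc hc hd hd1 hy
  -- the numerator
  have hsum : x ^ d * y ^ d * ((g.eval x⁻¹ + c) - (g.eval y⁻¹ + c)) =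
      (y - x) * ∑ k ∈ Finset.range d, g.coeff (k + 1) *
        ∑ i ∈ Finset.range (k + 1), x ^ (d - 1 - i) * y ^ (d - 1 - (k - i)) := by
    have h1 : ∀ z : K, g.eval z = ∑ k ∈ Finset.range d, g.coeff (k + 1) * z ^ (k + 1) +
        g.coeff 0 := by
      intro z
      rw [eval_eq_sum_range, hd, Finset.sum_range_succ']
      simp
    rw [h1, h1, Finset.mul_sum]
    have h2 : x ^ d * y ^ d * (∑ k ∈ Finset.range d, g.coeff (k + 1) * x⁻¹ ^ (k + 1) +
        g.coeff 0 + c - (∑ k ∈ Finset.range d, g.coeff (k + 1) * y⁻¹ ^ (k + 1) +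
        g.coeff 0 + c)) = ∑ k ∈ Finset.range d, g.coeff (k + 1) * (x ^ d * y ^ d *
        (x⁻¹ ^ (k + 1) - y⁻¹ ^ (k + 1))) := by
      have h3 : ∑ k ∈ Finset.range d, g.coeff (k + 1) * (x ^ d * y ^ d *
        (x⁻¹ ^ (k + 1) - y⁻¹ ^ (k + 1))) = x ^ d * y ^ d *
          (∑ k ∈ Finset.range d, g.coeff (k + 1) * x⁻¹ ^ (k + 1) -
            ∑ k ∈ Finset.range d, g.coeff (k + 1) * y⁻¹ ^ (k + 1)) := by
        rw [← Finset.sum_sub_distrib, Finset.mul_sum]
        exact Finset.sum_congr rfl fun k _ => by ring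
      rw [h3]
      ring
    rw [h2]
    refine Finset.sum_congr rfl fun k hk => ?_
    have hk' := Finset.mem_range.1 hk
    rw [mul_left_comm (y - x)]
    congr 1
    -- the geometric sum
    have h4 : (x⁻¹ ^ (k + 1) - y⁻¹ ^ (k + 1)) =
        (x⁻¹ - y⁻¹) * ∑ i ∈ Finset.range (k + 1), x⁻¹ ^ i * y⁻¹ ^ (k - i) := by
      have := (Commute.all x⁻¹ y⁻¹).mul_geom_sum₂ (k + 1)
      rw [← this]
      rfl
    have h5 : x⁻¹ - y⁻¹ = (y - x) * (x⁻¹ * y⁻¹) := by field_simp
    rw [h4, h5, mul_assoc (y - x), mul_left_comm (x ^ d * y ^ d) (y - x)]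
    congr 1
    rw [Finset.mul_sum, Finset.mul_sum]
    refine Finset.sum_congr rfl fun i hi => ?_
    have hi' : i ≤ k := Nat.lt_succ_iff.1 (Finset.mem_range.1 hi)
    have e1 : x ^ d = x ^ (d - 1 - i) * x ^ i * x := by
      rw [← pow_add, ← pow_succ]
      congr 1
      omega
    have e2 : y ^ d = y ^ (d - 1 - (k - i)) * y ^ (k - i) * y := by
      rw [← pow_add, ← pow_succ]
      congr 1
      omega
    rw [e1, e2, inv_pow, inv_pow]
    field_simp
  have hle : v (∑ k ∈ Finset.range d, g.coeff (k + 1) *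
        ∑ i ∈ Finset.range (k + 1), x ^ (d - 1 - i) * y ^ (d - 1 - (k - i))) ≤
      max 1 (v x) ^ (d - 1) * max 1 (v y) ^ (d - 1) := by
    refine v_sum_le v hv _ _ (by positivity) fun k hk => ?_
    have hk' := Finset.mem_range.1 hk
    rw [map_mul]
    refine (mul_le_of_le_one_left (v.nonneg _) (hg _)).trans ?_
    refine v_sum_le v hv _ _ (by positivity) fun i hi => ?_
    rw [map_mul, map_pow, map_pow]
    have p1 : ∀ (z : K) (a b : ℕ), a ≤ b → v z ^ a ≤ max 1 (v z) ^ b := by
      intro z a b hab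
      calc v z ^ a ≤ max 1 (v z) ^ a := pow_le_pow_left₀ (v.nonneg _) (le_max_right _ _) _
        _ ≤ max 1 (v z) ^ b := pow_le_pow_right₀ (le_max_left _ _) hab
    exact mul_le_mul (p1 x _ _ (by omega)) (p1 y _ _ (by omega)) (by positivity) (by positivity)
  have hnum : v x ^ d * v y ^ d * v ((g.eval x⁻¹ + c) - (g.eval y⁻¹ + c)) ≤
      v (x - y) * (max 1 (v x) ^ (d - 1) * max 1 (v y) ^ (d - 1)) := by
    rw [← map_pow, ← map_pow, ← map_mul, ← map_mul, hsum, map_mul, v.map_sub y x]
    exact mul_le_mul_of_nonneg_left hle (v.nonneg _)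
  rw [ch, ch, div_le_div_iff₀ (mul_pos (max_pos v _) (max_pos v _)) (mul_pos hMx hMy)]
  have hpos : 0 < v x ^ d * v y ^ d := by positivity
  refine le_of_mul_le_mul_left ?_ hpos
  have e3 : ∀ t : ℝ, t ^ d = t ^ (d - 1) * t := by
    intro t
    rw [← pow_succ, Nat.sub_add_cancel hd1]
  calc v x ^ d * v y ^ d * (v ((g.eval x⁻¹ + c) - (g.eval y⁻¹ + c)) *
        (max 1 (v x) * max 1 (v y)))
      = (v x ^ d * v y ^ d * v ((g.eval x⁻¹ + c) - (g.eval y⁻¹ + c))) *
        (max 1 (v x) * max 1 (v y)) := by ring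
    _ ≤ (v (x - y) * (max 1 (v x) ^ (d - 1) * max 1 (v y) ^ (d - 1))) *
        (max 1 (v x) * max 1 (v y)) := mul_le_mul_of_nonneg_right hnum (by positivity)
    _ = v (x - y) * (max 1 (v x) ^ d * max 1 (v y) ^ d) := by
        rw [e3 (max 1 (v x)), e3 (max 1 (v y))]
        ring
    _ = v (x - y) * ((v x ^ d * max 1 (v (g.eval x⁻¹ + c))) *
        (v y ^ d * max 1 (v (g.eval y⁻¹ + c)))) := by rw [nx, ny]
    _ = _ := by ring

/-- The chordal distances in a cycle are rotation invariant. -/
lemma good_rot {N : ℕ} {x : ℕ → K} (h : Cyc g c N x) (hg : ∀ i, v (g.coeff i) ≤ 1)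
    (hlc : v g.leadingCoeff = 1) (hc : v c ≤ 1) (hd : g.natDegree = d) (hd1 : 1 ≤ d)
    (i j : ℕ) : ch v (x (i + 1)) (x (j + 1)) = ch v (x i) (x j) := by
  have := const_of_periodic (a := fun n => ch v (x (i + n)) (x (j + n))) h.pos (fun n => by
      have h1 := h.step (i + n)
      have h2 := h.step (j + n)
      show ch v (x (i + (n + 1))) (x (j + (n + 1))) ≤ _
      rw [← Nat.add_assoc, ← Nat.add_assoc, h1, h2]
      exact good_step v hv hg hlc hc hd hd1 (h.ne_zero _) (h.ne_zero _)) (fun n => by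
      show ch v (x (i + (n + N))) (x (j + (n + N))) = _
      rw [← Nat.add_assoc, ← Nat.add_assoc, h.per, h.per]) 0
  simpa using this

/-- The chordal distances in a cycle only depend on the greatest common divisor of the difference
of the indices and the length. -/
theorem good_dist {N : ℕ} {x : ℕ → K} (h : Cyc g c N x) (hg : ∀ i, v (g.coeff i) ≤ 1)
    (hlc : v g.leadingCoeff = 1) (hc : v c ≤ 1) (hd : g.natDegree = d) (hd1 : 1 ≤ d) :
    ∃ D : ℕ → ℝ, (∀ k, ¬ N ∣ k → 0 < D k) ∧
      ∀ i j, i ≤ j → ch v (x i) (x j) = D (Nat.gcd (j - i) N) := by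
  set D : ℕ → ℝ := fun k => ch v (x 0) (x k) with hD
  have hrot : ∀ n i j, ch v (x (i + n)) (x (j + n)) = ch v (x i) (x j) := by
    intro n
    induction n with
    | zero => intro i j; rfl
    | succ n ih =>
      intro i j
      rw [← Nat.add_assoc, ← Nat.add_assoc, good_rot v hv h hg hlc hc hd hd1, ih]
  have hdist : ∀ i j, i ≤ j → ch v (x i) (x j) = D (j - i) := by
    intro i j hij
    have := hrot i 0 (j - i)
    rw [Nat.zero_add, Nat.sub_add_cancel hij] at this
    exact this
  have hgcd : ∀ k, D k = D (Nat.gcd k N) := by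
    refine dist_gcd h.pos ?_ ?_ ?_
    · intro k l
      have h1 := ch_le v hv (x 0) (x k) (x (k + l))
      have h2 := hdist k (k + l) (by omega)
      rw [Nat.add_sub_cancel_left] at h2
      rwa [h2] at h1
    · intro k
      simp only [hD, h.per]
    · intro k
      simp only [hD, ch_self]
      exact ch_nonneg v _ _
  refine ⟨D, fun k hk => ?_, fun i j hij => by rw [hdist i j hij, hgcd]⟩
  refine lt_of_le_of_ne (ch_nonneg v _ _) fun h0 => hk ?_
  have h0' : ch v (x 0) (x k) = 0 := h0.symm
  have h1 : v (x 0 - x k) = 0 := by rw [eq_ch_mul, h0', zero_mul]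
  have h2 := h.inj _ _ (sub_eq_zero.1 (v.eq_zero.1 h1))
  exact (Nat.modEq_zero_iff_dvd.1 h2.symm)

end good

end Pool.Agent.MP90787a.R
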