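import Pool.Agent.Lib.MP_90787a_nt.RF.Main2
import Pool.Agent.Lib.MP_90787a_nt.R.Good

set_option autoImplicit false

/-!
The map `g (1 / z) + c` as a pair of forms, its resultant and its weights.
-/

namespace Pool.Agent.MP90787a.R

open Finset Polynomial NumberField Pool.Agent.UBC90787a

section num

variable {K : Type} [Field K]

/-- The numerator of `g (1 / z) + c`. -/
noncomputable def num (g : K[X]) (c : K) : K[X] := g.reverse + C c * X ^ g.natDegree

lemma num_coeff (g : K[X]) (c : K) (i : ℕ) : (num g c).coeff i =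
    (if i ≤ g.natDegree then g.coeff (g.natDegree - i) else 0) +
      if i = g.natDegree then c else 0 := by
  rw [num, coeff_add, coeff_reverse, coeff_C_mul_X_pow]
  congr 1
  split_ifs with h
  · rw [revAt_le h]
  · rw [revAt_eq_self_of_lt (by omega)]
    exact coeff_eq_zero_of_natDegree_lt (by omega)

lemma num_natDegree_le (g : K[X]) (c : K) : (num g c).natDegree ≤ g.natDegree := by
  refine natDegree_add_le_of_degree_le (reverse_natDegree_le g) ?_
  exact natDegree_C_mul_X_pow_le _ _

lemma num_coeff_zero {g : K[X]} {c : K} (hd : 1 ≤ g.natDegree) :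
    (num g c).coeff 0 = g.leadingCoeff := by
  rw [num_coeff, if_pos (Nat.zero_le _), if_neg (by omega), Nat.sub_zero, add_zero]
  rfl

lemma num_eval {g : K[X]} {c x : K} (hx : x ≠ 0) :
    (num g c).eval x = x ^ g.natDegree * (g.eval x⁻¹ + c) := by
  rw [eval_eq_sum_range' (Nat.lt_succ_of_le (num_natDegree_le g c))]
  have h1 : ∀ i ∈ range (g.natDegree + 1), (num g c).coeff i * x ^ i =
      g.coeff (g.natDegree - i) * x ^ i + (if i = g.natDegree then c else 0) * x ^ i := by
    intro i hi
    have := mem_range.1 hi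
    rw [num_coeff, if_pos (by omega)]
    ring
  rw [sum_congr rfl h1, sum_add_distrib, mul_add]
  congr 1
  · rw [eval_eq_sum_range, mul_sum, ← sum_range_reflect]
    refine sum_congr rfl fun i hi => ?_
    have hi' := mem_range.1 hi
    have e1 : g.natDegree - (g.natDegree + 1 - 1 - i) = i := by omega
    have e2 : g.natDegree + 1 - 1 - i = g.natDegree - i := by omega
    rw [e1, e2]
    have e3 : x ^ g.natDegree = x ^ (g.natDegree - i) * x ^ i := by
      rw [← pow_add, Nat.sub_add_cancel (by omega)]
    rw [e3, inv_pow]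
    field_simp
  · rw [sum_eq_single g.natDegree]
    · rw [if_pos rfl]
      ring
    · intro i _ hi
      rw [if_neg hi, zero_mul]
    · intro h
      exact absurd (mem_range.2 (Nat.lt_succ_self _)) h

lemma num_isCoprime {g : K[X]} {c : K} (hd : 1 ≤ g.natDegree) :
    IsCoprime (num g c) (X ^ g.natDegree : K[X]) := by
  refine IsCoprime.pow_right ?_
  rw [isCoprime_comm]
  refine (Irreducible.coprime_iff_not_dvd irreducible_X).2 ?_
  rw [X_dvd_iff, num_coeff_zero hd, leadingCoeff_eq_zero]
  rintro rfl
  simp at hd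

lemma num_max (g : K[X]) (c : K) :
    max (num g c).natDegree (X ^ g.natDegree : K[X]).natDegree = g.natDegree := by
  rw [natDegree_X_pow]
  exact max_eq_right (num_natDegree_le g c)

lemma num_resultant {g : K[X]} {c : K} (hd : 1 ≤ g.natDegree) :
    resultant (num g c) (X ^ g.natDegree) g.natDegree g.natDegree =
      (-1) ^ (g.natDegree * g.natDegree) * g.leadingCoeff ^ g.natDegree := by
  rw [resultant_X_pow_right _ _ _ (num_natDegree_le g c), num_coeff_zero hd]

lemma homMap_num {g : K[X]} {c x : K} (hx : x ≠ 0) :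
    homMap (num g c) (X ^ g.natDegree) g.natDegree (x, 1) =
      x ^ g.natDegree • ((g.eval x⁻¹ + c, 1) : K × K) := by
  rw [homMap, homog_one (num_natDegree_le g c), homog_one (by rw [natDegree_X_pow]), num_eval hx]
  ext
  · simp
  · simp

end num

section cyc

variable {K : Type} [Field K] {g : K[X]} {c : K} {N : ℕ} {x : ℕ → K}

lemma cyc_iter (h : Cyc g c N x) (n i : ℕ) : ∃ μ : K, μ ≠ 0 ∧
    (homMap (num g c) (X ^ g.natDegree) g.natDegree)^[n] (x i, 1) = μ • ((x (i + n), 1) : K × K) := by
  induction n with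
  | zero => exact ⟨1, one_ne_zero, by simp⟩
  | succ n ih =>
    obtain ⟨μ, hμ, h1⟩ := ih
    refine ⟨μ ^ g.natDegree * x (i + n) ^ g.natDegree,
      mul_ne_zero (pow_ne_zero _ hμ) (pow_ne_zero _ (h.ne_zero _)), ?_⟩
    rw [Function.iterate_succ_apply', h1, homMap_hom, homMap_num (h.ne_zero _), ← h.step,
      smul_smul, Nat.add_assoc]

lemma cyc_pdata (h : Cyc g c N x) (i : ℕ) :
    ∃ a b : ℕ, ∃ μ : K, PData (num g c) (X ^ g.natDegree) g.natDegree (x i) a b μ := by
  obtain ⟨μ, hμ, h1⟩ := cyc_iter h N i
  refine ⟨N, 0, μ, h.pos, hμ, ?_⟩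
  rw [h1, h.per]
  rfl

lemma cyc_prep (h : Cyc g c N x) (i : ℕ) : ∃ a b : ℕ, b < a ∧
    ((homMap (num g c) (X ^ g.natDegree) g.natDegree)^[a] (x i, 1)).1 *
      ((homMap (num g c) (X ^ g.natDegree) g.natDegree)^[b] (x i, 1)).2 =
    ((homMap (num g c) (X ^ g.natDegree) g.natDegree)^[a] (x i, 1)).2 *
      ((homMap (num g c) (X ^ g.natDegree) g.natDegree)^[b] (x i, 1)).1 := by
  obtain ⟨a, b, μ, h1, _, h2⟩ := cyc_pdata h i
  refine ⟨a, b, h1, ?_⟩
  rw [h2]
  simp only [Prod.smul_fst, Prod.smul_snd, smul_eq_mul]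
  ring

end cyc

section weight

variable {K : Type} [Field K] [NumberField K] (v : FinitePlace K) {g : K[X]} {c : K}

/-- The size of the map at a place where `g` has good coefficients. -/
lemma size_le (hd : 1 ≤ g.natDegree) (hg : ∀ i, v (g.coeff i) ≤ 1) (hlc : v g.leadingCoeff = 1) :
    SizeAtMostOver v (num g c) (X ^ g.natDegree) g.natDegree (Real.log (max 1 (v c))) := by
  obtain ⟨L, _, _, _, ι, hι⟩ := exists_ultra_field v
  have hM : 0 < max 1 (v c) := lt_of_lt_of_le one_pos (le_max_left _ _)
  refine ⟨L, _, inferInstance, inferInstance, ι, hι, 1, 0, 0, 1, 1, by ring, ?_, ?_⟩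
  · rw [norm_one, one_pow, one_mul, hι, num_resultant hd, map_mul, map_pow, map_pow, hlc, one_pow,
      mul_one]
    have h1 : v (-1 : K) = 1 := by
      rw [map_neg_eq_map, map_one]
    rw [h1, one_pow]
  · intro a b P Q hP hQ
    rw [Real.exp_log hM]
    have e1 : (1 * a + 0 * b, 0 * a + 1 * b) = ((a, b) : L × L) := by
      ext <;> simp
    rw [e1] at hP hQ
    set m := max ‖a‖ ‖b‖ with hm
    have hm0 : 0 ≤ m := (norm_nonneg a).trans (le_max_left _ _)
    have hterm : ∀ i ∈ range (g.natDegree + 1), ‖a‖ ^ i * ‖b‖ ^ (g.natDegree - i) ≤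
        m ^ g.natDegree := by
      intro i hi
      have hi' := mem_range.1 hi
      calc ‖a‖ ^ i * ‖b‖ ^ (g.natDegree - i) ≤ m ^ i * m ^ (g.natDegree - i) := by
            gcongr
            · exact le_max_left _ _
            · exact le_max_right _ _
        _ = m ^ g.natDegree := by
            rw [← pow_add]
            congr 1
            omega
    have hform : ∀ p : K[X], (∀ i, v (p.coeff i) ≤ max 1 (v c)) →
        ‖homog (p.map ι) g.natDegree (a, b)‖ ≤ max 1 (v c) * m ^ g.natDegree := by
      intro p hp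
      unfold homog
      refine IsUltrametricDist.norm_sum_le_of_forall_le_of_nonneg (by positivity) ?_
      intro i hi
      rw [coeff_map, norm_mul, norm_mul, norm_pow, norm_pow, hι, mul_assoc]
      exact mul_le_mul (hp i) (hterm i hi) (by positivity) hM.le
    have hPb := hform (num g c) (by
      intro i
      rw [num_coeff]
      refine (FinitePlace.add_le v _ _).trans (max_le ?_ ?_)
      · split_ifs
        · exact (hg _).trans (le_max_left _ _)
        · rw [map_zero]
          exact hM.le
      · split_ifs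
        · exact le_max_right _ _
        · rw [map_zero]
          exact hM.le)
    have hQb := hform (X ^ g.natDegree) (by
      intro i
      rw [coeff_X_pow]
      split_ifs
      · rw [map_one]
        exact le_max_left _ _
      · rw [map_zero]
        exact hM.le)
    rw [← hP] at hPb
    rw [← hQ] at hQb
    refine max_le ?_ ?_
    · rwa [one_mul, one_mul, zero_mul, sub_zero]
    · rwa [one_mul, one_mul, zero_mul, sub_zero]

lemma weight_le (hd : 1 ≤ g.natDegree) (hg : ∀ i, v (g.coeff i) ≤ 1)
    (hlc : v g.leadingCoeff = 1) :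
    finWeight v (num g c) (X ^ g.natDegree) g.natDegree ≤ Real.log (max 1 (v c)) :=
  csInf_le ⟨0, fun _ h => h.1⟩ ⟨Real.log_nonneg (le_max_left _ _), size_le v hd hg hlc⟩

lemma potGoodRed_of_le (hd : 1 ≤ g.natDegree) (hg : ∀ i, v (g.coeff i) ≤ 1)
    (hlc : v g.leadingCoeff = 1) (hc : v c ≤ 1) :
    PotGoodRed v (num g c) (X ^ g.natDegree) g.natDegree := by
  have := size_le v (c := c) hd hg hlc
  rwa [max_eq_left hc, Real.log_one] at this

end weight

end Pool.Agent.MP90787a.R
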