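import Pool.Agent.Lib.MP_90787a_nt.T.Dyn

set_option autoImplicit false

/-!
General facts on nonarchimedean absolute values used for the maps `g (1 / z) + c`: distances which
are invariant under a rotation, few points with small values of a monic polynomial, colourings.
-/

namespace Pool.Agent.MP90787a.R

open Finset Polynomial Pool.Agent.MP90787a.T

/-! ### Rotation invariant distances -/

lemma mul_le_of_add {D : ℕ → ℝ} (hadd : ∀ k l, D (k + l) ≤ max (D k) (D l))
    (h0 : ∀ k, D 0 ≤ D k) (m k : ℕ) : D (m * k) ≤ D k := by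
  induction m with
  | zero => simpa using h0 k
  | succ m ih =>
    rw [Nat.succ_mul]
    exact (hadd _ _).trans (max_le ih le_rfl)

lemma per_mul {D : ℕ → ℝ} {N : ℕ} (hper : ∀ k, D (k + N) = D k) (k t : ℕ) :
    D (k + t * N) = D k := by
  induction t with
  | zero => simp
  | succ t ih => rw [Nat.succ_mul, ← Nat.add_assoc, hper, ih]

/-- A rotation invariant ultrametric on `ℤ / N` only depends on the greatest common divisor. -/
lemma dist_gcd {D : ℕ → ℝ} {N : ℕ} (hN : 0 < N) (hadd : ∀ k l, D (k + l) ≤ max (D k) (D l))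
    (hper : ∀ k, D (k + N) = D k) (h0 : ∀ k, D 0 ≤ D k) (k : ℕ) : D k = D (Nat.gcd k N) := by
  refine le_antisymm ?_ ?_
  · obtain ⟨q, hq⟩ := Nat.gcd_dvd_left k N
    conv_lhs => rw [hq, Nat.mul_comm]
    exact mul_le_of_add hadd h0 q _
  · have hb := Nat.gcd_eq_gcd_ab k N
    set a : ℤ := Nat.gcdA k N with ha
    set b : ℤ := Nat.gcdB k N with hb'
    -- a natural number congruent to `a` modulo `N`
    obtain ⟨m, hm⟩ : ∃ m : ℕ, (m : ℤ) = a % N :=
      ⟨(a % N).toNat, Int.toNat_of_nonneg (Int.emod_nonneg _ (by omega))⟩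
    have hcong : (m * k : ℤ) % N = (Nat.gcd k N : ℤ) % N := by
      rw [hb, hm, Int.add_mul_emod_self_left, Int.mul_comm (k : ℤ) a, Int.mul_emod,
        Int.emod_emod_of_dvd _ (dvd_refl _), ← Int.mul_emod]
    have hcong' : (m * k) % N = (Nat.gcd k N) % N := by exact_mod_cast hcong
    have h1 : D (m * k) = D ((m * k) % N) := by
      conv_lhs => rw [← Nat.mod_add_div (m * k) N, Nat.mul_comm N]
      exact per_mul hper _ _
    have h2 : D (Nat.gcd k N) = D (Nat.gcd k N % N) := by
      conv_lhs => rw [← Nat.mod_add_div (Nat.gcd k N) N, Nat.mul_comm N]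
      exact per_mul hper _ _
    rw [h2, ← hcong', ← h1]
    exact mul_le_of_add hadd h0 m k

/-- A periodic nonincreasing sequence is constant. -/
lemma const_of_periodic {a : ℕ → ℝ} {N : ℕ} (hN : 0 < N) (hstep : ∀ i, a (i + 1) ≤ a i)
    (hper : ∀ i, a (i + N) = a i) (i : ℕ) : a (i + 1) = a i := by
  refine le_antisymm (hstep i) ?_
  have hanti : Antitone a := antitone_nat_of_succ_le hstep
  calc a i = a (i + N) := (hper i).symm
    _ ≤ a (i + 1) := hanti (by omega)

/-! ### Colourings -/

/-- If an equivalence relation on a set has no `d + 1` pairwise inequivalent elements, its classes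
can be coloured with `d` colours. -/
lemma exists_colouring {α : Type} (P : Set α) (r : α → α → Prop) {d : ℕ} (hd : 0 < d)
    (hsymm : ∀ x ∈ P, ∀ y ∈ P, r x y → r y x)
    (htrans : ∀ x ∈ P, ∀ y ∈ P, ∀ z ∈ P, r x y → r y z → r x z)
    (h : ∀ t : Fin (d + 1) → α, (∀ i, t i ∈ P) → (∀ i j, i ≠ j → ¬ r (t i) (t j)) → False) :
    ∃ c : α → Fin d, ∀ x ∈ P, ∀ y ∈ P, c x = c y → r x y := by
  classical
  -- a maximal family of inequivalent elements
  let Q : ℕ → Prop := fun m => ∃ t : Fin m → α, (∀ i, t i ∈ P) ∧ ∀ i j, i ≠ j → ¬ r (t i) (t j)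
  have hQ0 : Q 0 := ⟨fun i => i.elim0, fun i => i.elim0, fun i => i.elim0⟩
  have hQd : ∀ m, Q m → m ≤ d := by
    intro m ⟨t, ht1, ht2⟩
    by_contra hm
    push Not at hm
    exact h (fun i => t (Fin.castLE (by omega) i)) (fun i => ht1 _) (fun i j hij =>
      ht2 _ _ (fun h' => hij (Fin.castLE_injective _ h')))
  have hmax := Nat.findGreatest_spec (P := Q) (Nat.zero_le d) hQ0
  set m := Nat.findGreatest Q d with hm
  have hmd : m ≤ d := Nat.findGreatest_le d
  obtain ⟨t, ht1, ht2⟩ := hmax
  have hcov : ∀ x ∈ P, ∃ i : Fin m, r x (t i) := by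
    intro x hx
    by_contra hcon
    push Not at hcon
    have hQ : Q (m + 1) := by
      refine ⟨Fin.cons x t, ?_, ?_⟩
      · intro i
        refine Fin.cases ?_ (fun i => ?_) i
        · simpa using hx
        · simpa using ht1 i
      · intro i j
        refine Fin.cases ?_ (fun i => ?_) i <;> refine Fin.cases ?_ (fun j => ?_) j
        · intro h'
          exact absurd rfl h'
        · intro _
          simpa using hcon j
        · intro _ h'
          simp only [Fin.cons_succ, Fin.cons_zero] at h'
          exact hcon i (hsymm _ (ht1 i) _ hx h')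
        · intro hij
          simp only [Fin.cons_succ]
          exact ht2 i j (fun h' => hij (by rw [h']))
    have h1 := hQd _ hQ
    have h2 := Nat.le_findGreatest h1 hQ
    omega
  rcases Nat.eq_zero_or_pos m with hm0 | hmpos
  · refine ⟨fun _ => ⟨0, hd⟩, fun x hx y hy _ => ?_⟩
    exfalso
    obtain ⟨i, _⟩ := hcov x hx
    have := i.isLt
    omega
  · have : Nonempty (Fin m) := ⟨⟨0, hmpos⟩⟩
    choose! i hi using hcov
    refine ⟨fun x => ⟨(i x).val, lt_of_lt_of_le (i x).isLt hmd⟩, fun x hx y hy hxy => ?_⟩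
    have h1 : i x = i y := by
      apply Fin.ext
      simpa using hxy
    have h2 := hi x hx
    have h3 := hi y hy
    rw [h1] at h2
    exact htrans _ hx _ (ht1 _) _ hy h2 (hsymm _ hy _ (ht1 _) h3)

/-! ### Few points with small values -/

section few

variable {K : Type} [Field K] (v : AbsoluteValue K ℝ) (hv : IsNonarchimedean v)

include hv

/-- A monic integral polynomial of degree `d` does not have small values at `d + 1` points with
pairwise distance one. -/
lemma monic_few {d : ℕ} (P : K[X]) (hP : P.Monic) (hdeg : P.natDegree = d)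
    (hint : ∀ i, v (P.coeff i) ≤ 1) (t : Fin (d + 1) → K) (ht : ∀ i, v (t i) ≤ 1)
    (hdist : ∀ i j, i ≠ j → v (t i - t j) = 1) (hsmall : ∀ i, v (P.eval (t i)) < 1) : False := by
  induction d generalizing P with
  | zero =>
    rw [Polynomial.Monic.natDegree_eq_zero hP] at hdeg
    have := hsmall 0
    rw [hdeg] at this
    simp at this
  | succ d ih =>
    set a := t 0 with ha
    set Q := P /ₘ (X - C a) with hQ
    have hdiv : ∀ x, P.eval x = P.eval a + (x - a) * Q.eval x := by
      intro x
      have h1 := modByMonic_add_div P (X - C a)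
      rw [modByMonic_X_sub_C_eq_C_eval] at h1
      have h2 := congrArg (Polynomial.eval x) h1
      rw [eval_add, eval_mul, eval_sub, eval_X, eval_C, eval_C] at h2
      exact h2.symm
    have hQdeg : Q.natDegree = d := by
      rw [hQ, natDegree_divByMonic _ (monic_X_sub_C a), natDegree_X_sub_C, hdeg]
      rfl
    have hQmon : Q.Monic := by
      rw [Polynomial.Monic, hQ, leadingCoeff_divByMonic_of_monic (monic_X_sub_C a), hP]
      rw [degree_X_sub_C, degree_eq_natDegree hP.ne_zero, hdeg]
      exact_mod_cast Nat.succ_le_succ (Nat.zero_le d)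
    refine ih Q hQmon hQdeg ?_ (fun i => t i.succ) (fun i => ht _) (fun i j hij => hdist _ _
      (fun h' => hij (Fin.succ_injective _ h'))) (fun i => ?_)
    · intro i
      rw [hQ, coeff_divByMonic_X_sub_C]
      refine v_sum_le v hv _ _ zero_le_one fun j _ => ?_
      rw [map_mul, map_pow]
      exact mul_le_one₀ (pow_le_one₀ (v.nonneg _) (ht 0)) (v.nonneg _) (hint j)
    · have h1 := hdiv (t i.succ)
      have h2 : v ((t i.succ - a) * Q.eval (t i.succ)) < 1 := by
        have h3 : (t i.succ - a) * Q.eval (t i.succ) = P.eval (t i.succ) - P.eval a := by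
          rw [h1]; ring
        rw [h3]
        exact (av_sub_le v hv _ _).trans_lt (max_lt (hsmall _) (hsmall _))
      rwa [map_mul, hdist _ _ (Fin.succ_ne_zero i), one_mul] at h2

end few

end Pool.Agent.MP90787a.R
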