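import Pool.Agent.Lib.MP_90787a_nt.R.CrossHeight
import Pool.Agent.Lib.MP_90787a_nt.R.Weights
import Pool.Agent.Lib.MP_90787a_nt.R.Bad
import Pool.Agent.Lib.MP_90787a_nt.G.Tree

set_option autoImplicit false

/-!
The core argument for the maps `g (1 / z) + c`: cross ratios of the points of a cycle which lie on
one curve over one number field.
-/

namespace Pool.Agent.MP90787a.R

open Finset Polynomial NumberField Height Pool.Agent.UBC90787a
open Pool.Agent.MP90787a.G (KissT Close Tree tree_cross)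

lemma fin_nonarch {K : Type} [Field K] [NumberField K] (v : FinitePlace K) :
    IsNonarchimedean v.val :=
  fun x y => FinitePlace.add_le v x y

/-- The places where `g` has bad coefficients form a finite set. -/
lemma exists_good_set {K : Type} [Field K] [NumberField K] (g : K[X]) (hd : 1 ≤ g.natDegree) :
    ∃ S : Finset (FinitePlace K), ∀ v, v ∉ S → (∀ i, v (g.coeff i) ≤ 1) ∧
      v g.leadingCoeff = 1 ∧ v ((g.natDegree : ℕ) : K) = 1 := by
  classical
  obtain ⟨S, hS⟩ := exists_finset_places (K := K)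
    (insert ((g.natDegree : ℕ) : K) ((Finset.range (g.natDegree + 1)).image g.coeff))
  refine ⟨S, fun v hv => ⟨fun i => ?_, ?_, ?_⟩⟩
  · by_cases h0 : g.coeff i = 0
    · rw [h0, map_zero]
      exact zero_le_one
    · refine (hS v hv _ (Finset.mem_insert_of_mem (Finset.mem_image_of_mem _ ?_)) h0).le
      exact Finset.mem_range.2 (Nat.lt_succ_of_le (le_natDegree_of_ne_zero h0))
  · refine hS v hv _ (Finset.mem_insert_of_mem (Finset.mem_image_of_mem _
      (Finset.mem_range.2 (Nat.lt_succ_self _)))) ?_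
    intro h0
    have h1 : g.leadingCoeff = 0 := h0
    rw [leadingCoeff_eq_zero] at h1
    rw [h1, natDegree_zero] at hd
    omega
  · refine hS v hv _ (Finset.mem_insert_self _ _) ?_
    exact_mod_cast (by omega : g.natDegree ≠ 0)

/-- The cross ratio determines the point. -/
lemma cross_inj {K : Type} [Field K] {p₀ p₁ p₂ t t' : K} (h01 : p₁ ≠ p₀) (h02 : p₀ ≠ p₂)
    (h12 : p₁ ≠ p₂) (ht : t ≠ p₂) (ht' : t' ≠ p₂)
    (h : (t - p₀) * (p₁ - p₂) / ((t - p₂) * (p₁ - p₀)) =
      (t' - p₀) * (p₁ - p₂) / ((t' - p₂) * (p₁ - p₀))) : t = t' := by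
  have n1 := sub_ne_zero.2 h01
  have n2 := sub_ne_zero.2 h12
  have n3 := sub_ne_zero.2 ht
  have n4 := sub_ne_zero.2 ht'
  have n5 := sub_ne_zero.2 h02
  rw [div_eq_div_iff (mul_ne_zero n3 n1) (mul_ne_zero n4 n1)] at h
  have h2 : (p₁ - p₂) * (p₁ - p₀) * ((p₀ - p₂) * (t - t')) = 0 := by
    linear_combination h
  have h3 : (p₀ - p₂) * (t - t') = 0 :=
    (mul_eq_zero.1 h2).resolve_left (mul_ne_zero n2 n1)
  exact sub_eq_zero.1 ((mul_eq_zero.1 h3).resolve_left n5)

open Classical in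
theorem core_gen {K L : Type} [Field K] [NumberField K] [Field L] [NumberField L]
    (φ : K →+* L) {D : Set L} (hD : KissT L D) (g : K[X]) (hd : 2 ≤ g.natDegree) :
    ∃ C : ℕ, ∀ (c : K) (N : ℕ) (x : ℕ → K), Cyc g c N x → ∀ (i₀ i₁ i₂ : ℕ) (J : Finset K),
      x i₁ ≠ x i₀ → x i₀ ≠ x i₂ → x i₁ ≠ x i₂ →
      (∀ t ∈ J, t ∈ Set.range x ∧ t ≠ x i₀ ∧ t ≠ x i₁ ∧ t ≠ x i₂ ∧
        φ ((t - x i₀) * (x i₁ - x i₂) / ((t - x i₂) * (x i₁ - x i₀))) ∈ D) → J.card ≤ C := by
  obtain ⟨S₁, hS₁⟩ := hD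
  set d := g.natDegree with hdd
  set gL : L[X] := g.map φ with hgL
  have hdL : gL.natDegree = d := natDegree_map φ
  obtain ⟨S₂, hS₂⟩ := exists_good_set gL (by omega)
  set SL : Finset (FinitePlace L) := S₁ ∪ S₂ with hSL
  have hn1 : 1 ≤ Module.finrank ℚ L := Module.finrank_pos
  set n : ℕ := Module.finrank ℚ L with hn
  have hlog2 : 0 ≤ Real.log 2 := Real.log_nonneg (by norm_num)
  have hwt := T.wt_nonneg L
  set Cinf : ℝ := 2 * ((2 * d + 1) * Real.log 2) * T.wt L with hCinf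
  have hCinf0 : 0 ≤ Cinf := by positivity
  obtain ⟨M, H₀, hM⟩ := hS₁ 1 (16 * d + Cinf) (d + 4) one_pos
  obtain ⟨Crf, hCrf⟩ := rf_main n d hn1 hd (max 1 H₀)
  refine ⟨M + ⌈Crf * (SL.card + 1) * Real.log (SL.card + 2)⌉₊, ?_⟩
  intro c N x hx i₀ i₁ i₂ J h10 h02 h12 hJ
  by_contra hcard
  push Not at hcard
  have hc1 : M < J.card := by omega
  have hc2 : ⌈Crf * (SL.card + 1) * Real.log (SL.card + 2)⌉₊ < J.card := by omega
  have hxL := hx.map φ
  set cL : L := φ c with hcL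
  set xL : ℕ → L := fun i => φ (x i) with hxLdef
  have hN2 : 2 ≤ N := by
    by_contra hcon
    have hN1 : N = 1 := by
      have := hx.pos
      omega
    apply h10
    refine hx.mod_eq ?_
    rw [hN1]
    exact Nat.modEq_one
  set p : L[X] := num gL cL with hp
  set q : L[X] := X ^ gL.natDegree with hq
  -- the support theorem
  obtain ⟨U, hUS, hUbig⟩ : ∃ U : Finset (FinitePlace L), Disjoint U SL ∧
      max 1 H₀ * (1 + ∑ v ∈ SL, finWeight v p q d +
          ∑ w : InfinitePlace L, (w.mult : ℝ) * archWeight w.embedding p q d) <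
        ∑ v ∈ U, finWeight v p q d := by
    by_contra hcon
    push Not at hcon
    have h1 := hCrf L rfl p q (by
        rw [hp, hq]
        exact num_isCoprime (by omega)) (by
        rw [hp, hq, num_max, hdL]) SL hcon (J.image φ) (by
        intro z hz
        obtain ⟨t, ht, rfl⟩ := Finset.mem_image.1 hz
        obtain ⟨k, rfl⟩ := (hJ t ht).1
        have := cyc_prep hxL k
        rw [← hp, ← hq, hdL] at this
        exact this)
    rw [Finset.card_image_of_injective _ φ.injective] at h1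
    have h2 : (J.card : ℝ) ≤ ⌈Crf * (SL.card + 1) * Real.log (SL.card + 2)⌉₊ :=
      h1.trans (Nat.le_ceil _)
    have h3 : J.card ≤ ⌈Crf * (SL.card + 1) * Real.log (SL.card + 2)⌉₊ := by exact_mod_cast h2
    omega
  set W : FinitePlace L → ℝ := fun v => finWeight v p q d with hW
  have hW0 : ∀ v, 0 ≤ W v := fun v => finWeight_nonneg _ _ _ _
  have hWle : ∀ v, v ∉ SL → W v ≤ Real.log (max 1 (v cL)) := by
    intro v hv
    obtain ⟨h1, h2, h3⟩ := hS₂ v (fun h => hv (Finset.mem_union_right _ h))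
    have := weight_le v (g := gL) (c := cL) (by omega) h1 h2
    rw [← hp, ← hq, hdL] at this
    exact this
  have hWz : ∀ v, v ∉ SL → v cL ≤ 1 → W v = 0 := by
    intro v hv hc
    refine le_antisymm ?_ (hW0 v)
    have := hWle v hv
    rwa [max_eq_left hc, Real.log_one] at this
  set WS : ℝ := ∑ v ∈ SL, W v with hWS
  set Wi : ℝ := ∑ w : InfinitePlace L, (w.mult : ℝ) * archWeight w.embedding p q d with hWi
  have hWS0 : 0 ≤ WS := Finset.sum_nonneg fun v _ => hW0 v
  have hWi0 : 0 ≤ Wi := Finset.sum_nonneg fun w _ =>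
    mul_nonneg (Nat.cast_nonneg _) (archWeight_nonneg _ _ _ _)
  -- the bad places
  obtain ⟨F₁, hF₁⟩ := exists_finset_places (K := L) {cL}
  set F : Finset (FinitePlace L) := F₁.filter fun v => v ∉ SL ∧ 1 < v cL with hF
  have hFmem : ∀ v, v ∉ SL → 1 < v cL → v ∈ F := by
    intro v hv hc
    rw [hF, Finset.mem_filter]
    refine ⟨?_, hv, hc⟩
    by_contra hvF
    have h0 : cL ≠ 0 := by
      intro h0
      rw [h0, map_zero] at hc
      linarith
    have := hF₁ v hvF cL (Finset.mem_singleton_self _) h0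
    linarith
  have hFprop : ∀ v ∈ F, v ∉ SL ∧ 1 < v cL := fun v hv => (Finset.mem_filter.1 hv).2
  -- the trees
  have htree : ∀ v ∈ F, v (xL 0) ^ d * v cL = 1 ∧
      Tree v (Set.range xL) (v (xL 0)) (v (xL 0)⁻¹ ^ (d + 1)) d := by
    intro v hv
    obtain ⟨hvS, hvc⟩ := hFprop v hv
    obtain ⟨h1, h2, h3⟩ := hS₂ v (fun h => hvS (Finset.mem_union_right _ h))
    have h4 := bad_tree v.val (fin_nonarch v) hxL hN2 h1 h2 h3 hvc rfl (by omega)
    rw [hdL] at h4
    exact h4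
  set θ : FinitePlace L → ℝ := fun v => (v (xL 0)⁻¹ ^ (d + 1))⁻¹ with hθ
  have hx0 : xL 0 ≠ 0 := hxL.ne_zero 0
  have hθ0 : ∀ v ∈ F, 0 < θ v ∧ θ v < 1 ∧ Real.log (v cL) ≤ - Real.log (θ v) := by
    intro v hv
    obtain ⟨h1, hr, hρ, _⟩ := htree v hv
    have hvx : 0 < v (xL 0) := FinitePlace.pos_iff.2 hx0
    refine ⟨inv_pos.2 (one_pos.trans hρ), inv_lt_one_of_one_lt₀ hρ, ?_⟩
    have h2 : v cL = (v (xL 0)⁻¹) ^ d := by
      rw [map_inv₀, inv_pow]
      exact eq_inv_of_mul_eq_one_right h1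
    have h3 : 1 ≤ v (xL 0)⁻¹ := by
      by_contra hcon
      push Not at hcon
      have : v (xL 0)⁻¹ ^ (d + 1) < 1 := pow_lt_one₀ (by positivity) hcon (by omega)
      linarith
    have h4 : 0 ≤ Real.log (v (xL 0)⁻¹) := Real.log_nonneg h3
    rw [h2, hθ]
    simp only
    rw [Real.log_inv, neg_neg, Real.log_pow, Real.log_pow]
    push_cast
    nlinarith
  set H : ℝ := ∑ v ∈ F, - Real.log (θ v) with hH
  have hWFH : ∑ v ∈ F, W v ≤ H := by
    refine Finset.sum_le_sum fun v hv => ?_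
    obtain ⟨hvS, hvc⟩ := hFprop v hv
    refine (hWle v hvS).trans ?_
    rw [max_eq_right hvc.le]
    exact (hθ0 v hv).2.2
  have hUF : ∑ v ∈ U, W v ≤ ∑ v ∈ F, W v := by
    have h1 : ∑ v ∈ U, W v = ∑ v ∈ U ∩ F, W v := by
      refine (Finset.sum_subset Finset.inter_subset_left fun v hvU hv => ?_).symm
      have hvS : v ∉ SL := fun h => Finset.disjoint_left.1 hUS hvU h
      refine hWz v hvS ?_
      by_contra hcon
      push Not at hcon
      exact hv (Finset.mem_inter.2 ⟨hvU, hFmem v hvS hcon⟩)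
    rw [h1]
    exact Finset.sum_le_sum_of_subset_of_nonneg Finset.inter_subset_right fun v _ _ => hW0 v
  have hUbig' : max 1 H₀ * (1 + WS + Wi) < ∑ v ∈ U, W v := hUbig
  have hσ1 : (1 : ℝ) ≤ max 1 H₀ := le_max_left _ _
  have hσ2 : H₀ ≤ max 1 H₀ := le_max_right _ _
  have hHσ : max 1 H₀ * (1 + WS + Wi) < H := hUbig'.trans_le (hUF.trans hWFH)
  have hb1 : max 1 H₀ ≤ max 1 H₀ * (1 + WS + Wi) := le_mul_of_one_le_right (by linarith) (by linarith)
  have hb2 : 1 + WS + Wi ≤ max 1 H₀ * (1 + WS + Wi) := le_mul_of_one_le_left (by linarith) hσ1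
  have hHH₀ : H₀ ≤ H := by linarith
  have hH1 : 1 ≤ H := by linarith
  have hHW : WS + Wi ≤ H := by linarith
  -- the points
  set τ : K → L := fun t => φ ((t - x i₀) * (x i₁ - x i₂) / ((t - x i₂) * (x i₁ - x i₀))) with hτ
  have hτ' : ∀ t, τ t = (φ t - xL i₀) * (xL i₁ - xL i₂) / ((φ t - xL i₂) * (xL i₁ - xL i₀)) := by
    intro t
    simp only [hτ, hxLdef, map_div₀, map_mul, map_sub]
  have hinj : Set.InjOn τ J := by
    intro t ht t' ht' h
    have h1 := φ.injective h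
    exact cross_inj h10 h02 h12 (hJ t ht).2.2.2.1 (hJ t' ht').2.2.2.1 h1
  have hAcard : (J.image τ).card = J.card := Finset.card_image_of_injOn hinj
  have hLne : ∀ {a b : K}, a ≠ b → φ a ≠ φ b := fun h => φ.injective.ne h
  have key := hM H hHH₀ (J.image τ) F θ ?_ ?_ ?_
  · rw [hAcard] at key
    omega
  · -- heights
    intro T hT
    obtain ⟨t, ht, rfl⟩ := Finset.mem_image.1 hT
    obtain ⟨⟨k, rfl⟩, ht0, ht1, ht2, htD⟩ := hJ t ht
    refine ⟨htD, ?_⟩
    rw [hτ']
    have hpre : ∀ y : L, y = φ (x k) ∨ y = xL i₀ ∨ y = xL i₁ ∨ y = xL i₂ →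
        ∃ i j : ℕ, ∃ μ : L, PData p q d y i j μ := by
      have hall : ∀ k, ∃ i j : ℕ, ∃ μ : L, PData p q d (xL k) i j μ := by
        intro k
        have := cyc_pdata hxL k
        rw [← hp, ← hq, hdL] at this
        exact this
      rintro y (rfl | rfl | rfl | rfl)
      · exact hall k
      · exact hall i₀
      · exact hall i₁
      · exact hall i₂
    have h1 := cross_height (L := L) (p := p) (q := q) (d := d) hd (by
        rw [hp, ← hdL]
        exact num_natDegree_le _ _) (by rw [hq, natDegree_X_pow, hdL]) (by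
        have h2 := num_resultant (g := gL) (c := cL) (by omega)
        rw [← hp, ← hq, hdL] at h2
        rw [h2]
        refine mul_ne_zero (pow_ne_zero _ (neg_ne_zero.2 one_ne_zero)) (pow_ne_zero _ ?_)
        rw [Ne, leadingCoeff_eq_zero]
        intro h0
        rw [h0, natDegree_zero] at hdL
        omega) (t := φ (x k)) (p₀ := xL i₀) (p₁ := xL i₁) (p₂ := xL i₂) (hLne ht0) (hLne ht2)
        (hLne h10) (hLne h12) hpre (SL ∪ F) (by
        intro v hv
        rw [Finset.mem_union, not_or] at hv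
        refine hWz v hv.1 ?_
        by_contra hcon
        push Not at hcon
        exact hv.2 (hFmem v hv.1 hcon))
    have h2 : ∑ v ∈ SL ∪ F, finWeight v p q d ≤ WS + H := by
      have h3 : ∑ v ∈ SL ∪ F, W v ≤ ∑ v ∈ SL, W v + ∑ v ∈ F, W v := by
        have := Finset.sum_union_inter (s₁ := SL) (s₂ := F) (f := W)
        have h4 : 0 ≤ ∑ v ∈ SL ∩ F, W v := Finset.sum_nonneg fun v _ => hW0 v
        linarith
      have h5 : ∑ v ∈ SL ∪ F, finWeight v p q d = ∑ v ∈ SL ∪ F, W v := rfl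
      rw [h5]
      linarith
    have hd0 : (0 : ℝ) ≤ 8 * d := by positivity
    calc _ ≤ 8 * d * (∑ v ∈ SL ∪ F, finWeight v p q d + Wi) + Cinf := h1
      _ ≤ 8 * d * (H + H) + Cinf * H := by
          have h6 : Cinf ≤ Cinf * H := le_mul_of_one_le_right hCinf0 hH1
          have h7 : ∑ v ∈ SL ∪ F, finWeight v p q d + Wi ≤ H + H := by linarith
          have h8 := mul_le_mul_of_nonneg_left h7 hd0
          linarith
      _ = (16 * d + Cinf) * H := by ring
  · -- closeness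
    intro v hv
    obtain ⟨hvS, hvc⟩ := hFprop v hv
    obtain ⟨hθ1, hθ2, _⟩ := hθ0 v hv
    refine ⟨fun h => hvS (Finset.mem_union_left _ h), hθ1, hθ2, ?_⟩
    obtain ⟨cl, hcl⟩ := tree_cross v (htree v hv).2 ⟨i₀, rfl⟩ ⟨i₁, rfl⟩ ⟨i₂, rfl⟩
      (hLne (Ne.symm h10)) (hLne h02) (hLne h12)
    refine ⟨fun T => cl (φ (Function.invFunOn τ (J : Set K) T)), ?_⟩
    intro T hT T' hT' hTT
    obtain ⟨t, ht, rfl⟩ := Finset.mem_image.1 hT
    obtain ⟨t', ht', rfl⟩ := Finset.mem_image.1 hT'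
    have e1 : Function.invFunOn τ (J : Set K) (τ t) = t := hinj.leftInvOn_invFunOn ht
    have e2 : Function.invFunOn τ (J : Set K) (τ t') = t' := hinj.leftInvOn_invFunOn ht'
    simp only [e1, e2] at hTT
    obtain ⟨⟨k, rfl⟩, ht0, ht1, ht2, _⟩ := hJ t ht
    obtain ⟨⟨k', rfl⟩, ht0', ht1', ht2', _⟩ := hJ t' ht'
    have := hcl (φ (x k)) ⟨k, rfl⟩ (φ (x k')) ⟨k', rfl⟩ (hLne ht0) (hLne ht1) (hLne ht2)
      (hLne ht0') (hLne ht1') (hLne ht2') hTT
    rw [← hτ', ← hτ'] at this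
    exact this
  · rw [one_mul]

end Pool.Agent.MP90787a.R
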