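import Pool.Agent.Lib.MP_90787a_nt.R.Core
import Pool.Agent.Lib.MP_90787a_nt.G.Cycles

set_option autoImplicit false

/-!
The lengths of the cycles of the maps `g (1 / z) + c`.
-/

namespace Pool.Agent.MP90787a.R

open Finset Polynomial NumberField Height Pool.Agent.UBC90787a
open Pool.Agent.MP90787a.G (KissT Close Tree packT_even packT_odd)

section cross

variable {K : Type} [Field K] (v : AbsoluteValue K ℝ)

/-- The absolute value of a cross ratio in terms of chordal distances. -/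
lemma v_cross {p₀ p₁ p₂ t : K} : v ((t - p₀) * (p₁ - p₂) / ((t - p₂) * (p₁ - p₀))) =
    ch v t p₀ * ch v p₁ p₂ / (ch v t p₂ * ch v p₁ p₀) := by
  have h0 := max_pos v t
  have h1 := max_pos v p₀
  have h2 := max_pos v p₁
  have h3 := max_pos v p₂
  rw [map_div₀, map_mul, map_mul, eq_ch_mul v t, eq_ch_mul v p₁ p₂, eq_ch_mul v t p₂,
    eq_ch_mul v p₁ p₀]
  field_simp

lemma one_sub_cross {p₀ p₁ p₂ t : K} (h01 : p₁ ≠ p₀) (ht : t ≠ p₂) :
    1 - (t - p₀) * (p₁ - p₂) / ((t - p₂) * (p₁ - p₀)) =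
      (t - p₁) * (p₀ - p₂) / ((t - p₂) * (p₀ - p₁)) := by
  have n1 : p₁ - p₀ ≠ 0 := sub_ne_zero.mpr h01
  have n2 : p₀ - p₁ ≠ 0 := sub_ne_zero.mpr h01.symm
  have n3 : t - p₂ ≠ 0 := sub_ne_zero.mpr ht
  field_simp
  ring

/-- Cross ratios of the points of a tree. -/
lemma tree_pow {P : Set K} {r ρ : ℝ} {d n : ℕ} (h : Tree v P r ρ d) {e : K} (he : e ≠ 0)
    (hρ : ρ = v e ^ n) {p₀ p₁ p₂ t : K} (h₀ : p₀ ∈ P) (h₁ : p₁ ∈ P) (h₂ : p₂ ∈ P) (ht : t ∈ P)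
    (h01 : p₁ ≠ p₀) (h12 : p₁ ≠ p₂) (ht0 : t ≠ p₀) (ht2 : t ≠ p₂) :
    ∃ b : K, b ≠ 0 ∧ v ((t - p₀) * (p₁ - p₂) / ((t - p₂) * (p₁ - p₀))) = v b ^ n := by
  obtain ⟨hr, hρ1, hdist, _⟩ := h
  obtain ⟨k₁, e₁⟩ := hdist t ht p₀ h₀ ht0
  obtain ⟨k₂, e₂⟩ := hdist p₁ h₁ p₂ h₂ h12
  obtain ⟨k₃, e₃⟩ := hdist t ht p₂ h₂ ht2
  obtain ⟨k₄, e₄⟩ := hdist p₁ h₁ p₀ h₀ h01
  have hρ0 : 0 < ρ := one_pos.trans hρ1
  have hval : ∀ {a b : K} {k : ℕ}, v (a - b) * ρ ^ k = r → v (a - b) = r / ρ ^ k := by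
    intro a b k h
    rw [eq_div_iff (by positivity)]
    exact h
  refine ⟨e ^ (k₃ + k₄) / e ^ (k₁ + k₂), div_ne_zero (pow_ne_zero _ he) (pow_ne_zero _ he), ?_⟩
  rw [map_div₀, map_mul, map_mul, hval e₁, hval e₂, hval e₃, hval e₄, map_div₀, map_pow, map_pow,
    div_pow, ← pow_mul, ← pow_mul, mul_comm (k₃ + k₄) n, mul_comm (k₁ + k₂) n, pow_mul, pow_mul,
    ← hρ, pow_add, pow_add]
  field_simp

/-- The maximum of one and an absolute value is an absolute value. -/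
lemma exists_max (a : K) : ∃ e : K, e ≠ 0 ∧ v e = max 1 (v a) := by
  rcases le_or_gt (v a) 1 with h | h
  · exact ⟨1, one_ne_zero, by rw [map_one, max_eq_left h]⟩
  · refine ⟨a, ?_, by rw [max_eq_right h.le]⟩
    rintro rfl
    rw [map_zero] at h
    linarith

lemma exists_ch {a b : K} (hab : a ≠ b) : ∃ e : K, e ≠ 0 ∧ v e = ch v a b := by
  obtain ⟨e₁, h1, h1'⟩ := exists_max v a
  obtain ⟨e₂, h2, h2'⟩ := exists_max v b
  refine ⟨(a - b) / (e₁ * e₂), div_ne_zero (sub_ne_zero.2 hab) (mul_ne_zero h1 h2), ?_⟩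
  rw [ch, map_div₀, map_mul, h1', h2']

end cross

section cyc

variable {K : Type} [Field K] {g : K[X]} {c : K} {N : ℕ} {x : ℕ → K}

lemma Cyc.inj_lt (h : Cyc g c N x) {a b : ℕ} (ha : a < N) (hb : b < N) (hab : x a = x b) :
    a = b := by
  have := h.inj _ _ hab
  rwa [Nat.ModEq, Nat.mod_eq_of_lt ha, Nat.mod_eq_of_lt hb] at this

/-- The greatest common divisor attached to two indices. -/
def gg (N a b : ℕ) : ℕ := Nat.gcd (Nat.dist a b) N

lemma ch_gg {v : AbsoluteValue K ℝ} {D : ℕ → ℝ}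
    (hD : ∀ i j, i ≤ j → ch v (x i) (x j) = D (Nat.gcd (j - i) N)) (i j : ℕ) :
    ch v (x i) (x j) = D (gg N i j) := by
  rcases le_total i j with h | h
  · rw [hD i j h, gg, Nat.dist_eq_sub_of_le h]
  · rw [ch_comm, hD j i h, gg, Nat.dist_comm, Nat.dist_eq_sub_of_le h]

end cyc

/-- The core theorem for triangles and stars. -/
theorem core_tri (K : Type) [Field K] [NumberField K] (g : K[X]) (hd : 2 ≤ g.natDegree) :
    ∃ C : ℕ, ∀ (c : K) (N : ℕ) (x : ℕ → K), Cyc g c N x → ∀ (i₀ i₁ i₂ : ℕ) (I : Finset ℕ),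
      i₀ < N → i₁ < N → i₂ < N → i₀ ≠ i₁ → i₀ ≠ i₂ → i₁ ≠ i₂ →
      gg N i₀ i₂ = gg N i₁ i₂ →
      (∀ j ∈ I, j < N ∧ j ≠ i₀ ∧ j ≠ i₁ ∧ j ≠ i₂ ∧ gg N j i₀ = gg N i₁ i₀ ∧
        gg N j i₁ = gg N i₁ i₀ ∧ gg N j i₂ = gg N i₁ i₂) → I.card ≤ C := by
  classical
  obtain ⟨S, hS⟩ := exists_good_set g (by omega)
  obtain ⟨L, _, _, φ, D, E, hD, hE⟩ : ∃ (L : Type) (_ : Field L) (_ : NumberField L)
      (φ : K →+* L) (D : Set L) (E : Finset K), KissT L D ∧ ∀ T : K, T ≠ 0 → T ≠ 1 → T ∉ E →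
        (∀ v : FinitePlace K, v ∉ S → ∃ b : K, b ≠ 0 ∧ v T = v b ^ (g.natDegree + 1)) →
        (∀ v : FinitePlace K, v ∉ S → ∃ b : K, b ≠ 0 ∧ v (1 - T) = v b ^ (g.natDegree + 1)) →
        φ T ∈ D := by
    rcases Nat.even_or_odd (g.natDegree + 1) with hev | hod
    · obtain ⟨L, i1, i2, φ, D, E, hD, hE⟩ := packT_even K (g.natDegree + 1) (by
        obtain ⟨a, ha⟩ := hev
        omega) hev S
      refine ⟨L, i1, i2, φ, D, E, hD, fun T h0 h1 hTE h2 h3 => hE T h0 h1 hTE h2 ?_⟩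
      intro v hv
      obtain ⟨b, hb, hb'⟩ := h3 v hv
      obtain ⟨a, ha⟩ := hev
      refine ⟨b ^ a, pow_ne_zero _ hb, ?_⟩
      rw [hb', ha, map_pow, ← pow_mul]
      congr 1
      ring
    · exact packT_odd K (g.natDegree + 1) (by omega) hod S
  obtain ⟨C, hC⟩ := core_gen φ hD g hd
  refine ⟨C + E.card, ?_⟩
  intro c N x hx i₀ i₁ i₂ I hi0 hi1 hi2 h01 h02 h12 hgg hI
  have n01 : x i₁ ≠ x i₀ := fun h => h01 (hx.inj_lt hi1 hi0 h).symm
  have n02 : x i₀ ≠ x i₂ := fun h => h02 (hx.inj_lt hi0 hi2 h)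
  have n12 : x i₁ ≠ x i₂ := fun h => h12 (hx.inj_lt hi1 hi2 h)
  have hN2 : 2 ≤ N := by omega
  set τ : ℕ → K := fun j => (x j - x i₀) * (x i₁ - x i₂) / ((x j - x i₂) * (x i₁ - x i₀)) with hτ
  have hne : ∀ j ∈ I, x j ≠ x i₀ ∧ x j ≠ x i₁ ∧ x j ≠ x i₂ := by
    intro j hj
    obtain ⟨h1, h2, h3, h4, _⟩ := hI j hj
    exact ⟨fun h => h2 (hx.inj_lt h1 hi0 h), fun h => h3 (hx.inj_lt h1 hi1 h),
      fun h => h4 (hx.inj_lt h1 hi2 h)⟩
  have hinj : Set.InjOn τ I := by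
    intro j hj j' hj' h
    have h1 := cross_inj n01 n02 n12 (hne j hj).2.2 (hne j' hj').2.2 h
    exact hx.inj_lt (hI j hj).1 (hI j' hj').1 h1
  -- the exceptional values
  have hsplit : I.card = (I.filter fun j => τ j ∈ E).card + (I.filter fun j => ¬ τ j ∈ E).card :=
    (Finset.card_filter_add_card_filter_not _).symm
  have hE1 : (I.filter fun j => τ j ∈ E).card ≤ E.card := by
    refine Finset.card_le_card_of_injOn τ (fun j hj => (Finset.mem_filter.1 hj).2) ?_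
    intro a ha b hb hab
    exact hinj (Finset.mem_filter.1 ha).1 (Finset.mem_filter.1 hb).1 hab
  have hE2 : ((I.filter fun j => ¬ τ j ∈ E).image x).card = (I.filter fun j => ¬ τ j ∈ E).card := by
    refine Finset.card_image_of_injOn ?_
    intro a ha b hb hab
    exact hx.inj_lt (hI a (Finset.mem_filter.1 ha).1).1 (hI b (Finset.mem_filter.1 hb).1).1 hab
  have key := hC c N x hx i₀ i₁ i₂ ((I.filter fun j => ¬ τ j ∈ E).image x) n01 n02 n12 ?_
  · omega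
  · intro t ht
    obtain ⟨j, hj, rfl⟩ := Finset.mem_image.1 ht
    obtain ⟨hjI, hjE⟩ := Finset.mem_filter.1 hj
    obtain ⟨m0, m1, m2⟩ := hne j hjI
    obtain ⟨hjN, _, _, _, g0, g1, g2⟩ := hI j hjI
    refine ⟨⟨j, rfl⟩, m0, m1, m2, ?_⟩
    have hT0 : τ j ≠ 0 := div_ne_zero (mul_ne_zero (sub_ne_zero.2 m0) (sub_ne_zero.2 n12))
      (mul_ne_zero (sub_ne_zero.2 m2) (sub_ne_zero.2 n01))
    have hT1 : 1 - τ j ≠ 0 := by
      simp only [hτ]
      rw [one_sub_cross n01 m2]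
      exact div_ne_zero (mul_ne_zero (sub_ne_zero.2 m1) (sub_ne_zero.2 n02))
        (mul_ne_zero (sub_ne_zero.2 m2) (sub_ne_zero.2 n01.symm))
    have hboth : ∀ v : FinitePlace K, v ∉ S → (∃ b : K, b ≠ 0 ∧ v (τ j) = v b ^ (g.natDegree + 1)) ∧
        ∃ b : K, b ≠ 0 ∧ v (1 - τ j) = v b ^ (g.natDegree + 1) := by
      intro v hv
      obtain ⟨h1, h2, h3⟩ := hS v hv
      simp only [hτ]
      rw [one_sub_cross n01 m2]
      rcases le_or_gt (v c) 1 with hc | hc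
      · -- good reduction
        obtain ⟨D', hD'0, hD'⟩ := good_dist v.val (fin_nonarch v) hx h1 h2 hc rfl (by omega)
        have hch := ch_gg (v := v.val) (x := x) (N := N) hD'
        have hpos : ∀ {a b : ℕ}, x a ≠ x b → 0 < ch v.val (x a) (x b) := by
          intro a b hab
          exact div_pos (v.val.pos (sub_ne_zero.2 hab)) (mul_pos (max_pos _ _) (max_pos _ _))
        refine ⟨⟨1, one_ne_zero, ?_⟩, ⟨1, one_ne_zero, ?_⟩⟩
        · have e1 : v.val ((x j - x i₀) * (x i₁ - x i₂) / ((x j - x i₂) * (x i₁ - x i₀))) = 1 := by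
            rw [v_cross, hch j i₀, hch i₁ i₂, hch j i₂, hch i₁ i₀, g0, g2]
            have p1 := hpos n01
            have p2 := hpos n12
            rw [hch] at p1 p2
            rw [mul_comm (D' (gg N i₁ i₂))]
            exact div_self (mul_pos p1 p2).ne'
          rw [map_one, one_pow]
          exact e1
        · have e1 : v.val ((x j - x i₁) * (x i₀ - x i₂) / ((x j - x i₂) * (x i₀ - x i₁))) = 1 := by
            rw [v_cross, hch j i₁, hch i₀ i₂, hch j i₂, ch_comm v.val (x i₀) (x i₁), hch i₁ i₀, g1,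
              g2, hgg]
            have p1 := hpos n01
            have p2 := hpos n12
            rw [hch] at p1 p2
            rw [mul_comm (D' (gg N i₁ i₂))]
            exact div_self (mul_pos p1 p2).ne'
          rw [map_one, one_pow]
          exact e1
      · -- bad reduction
        obtain ⟨_, htr⟩ := bad_tree v.val (fin_nonarch v) hx hN2 h1 h2 h3 hc rfl (by omega)
        have he : (x 0)⁻¹ ≠ 0 := inv_ne_zero (hx.ne_zero 0)
        exact ⟨tree_pow v.val htr he rfl ⟨i₀, rfl⟩ ⟨i₁, rfl⟩ ⟨i₂, rfl⟩ ⟨j, rfl⟩ n01 n12 m0 m2,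
          tree_pow v.val htr he rfl ⟨i₁, rfl⟩ ⟨i₀, rfl⟩ ⟨i₂, rfl⟩ ⟨j, rfl⟩ n01.symm n02 m1 m2⟩
    exact hE (τ j) hT0 (fun h => hT1 (by rw [h, sub_self])) hjE (fun v hv => (hboth v hv).1)
      (fun v hv => (hboth v hv).2)

/-- The core theorem for powers of two. -/
theorem core_two (K : Type) [Field K] [NumberField K] (g : K[X]) (hd : 2 ≤ g.natDegree)
    (hodd : Odd g.natDegree) :
    ∃ C : ℕ, ∀ (c : K) (N : ℕ) (x : ℕ → K), Cyc g c N x → ∀ (i₀ i₁ i₂ : ℕ) (I : Finset ℕ),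
      i₀ < N → i₁ < N → i₂ < N → i₀ ≠ i₁ → i₀ ≠ i₂ → i₁ ≠ i₂ →
      gg N i₁ i₂ = gg N i₁ i₀ →
      (∀ j ∈ I, j < N ∧ j ≠ i₀ ∧ j ≠ i₁ ∧ j ≠ i₂ ∧ gg N j i₀ = gg N i₁ i₀ ∧
        gg N j i₂ = gg N i₁ i₀ ∧ gg N j i₁ = gg N i₀ i₂) → I.card ≤ C := by
  classical
  obtain ⟨S, hS⟩ := exists_good_set g (by omega)
  have hev : Even (g.natDegree + 1) := hodd.add_one
  obtain ⟨L, _, _, φ, D, E, hD, hE⟩ := packT_even K (g.natDegree + 1) (by
    obtain ⟨a, ha⟩ := hodd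
    omega) hev S
  obtain ⟨C, hC⟩ := core_gen φ hD g hd
  refine ⟨C + E.card, ?_⟩
  intro c N x hx i₀ i₁ i₂ I hi0 hi1 hi2 h01 h02 h12 hgg hI
  have n01 : x i₁ ≠ x i₀ := fun h => h01 (hx.inj_lt hi1 hi0 h).symm
  have n02 : x i₀ ≠ x i₂ := fun h => h02 (hx.inj_lt hi0 hi2 h)
  have n12 : x i₁ ≠ x i₂ := fun h => h12 (hx.inj_lt hi1 hi2 h)
  have hN2 : 2 ≤ N := by omega
  set τ : ℕ → K := fun j => (x j - x i₀) * (x i₁ - x i₂) / ((x j - x i₂) * (x i₁ - x i₀)) with hτ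
  have hne : ∀ j ∈ I, x j ≠ x i₀ ∧ x j ≠ x i₁ ∧ x j ≠ x i₂ := by
    intro j hj
    obtain ⟨h1, h2, h3, h4, _⟩ := hI j hj
    exact ⟨fun h => h2 (hx.inj_lt h1 hi0 h), fun h => h3 (hx.inj_lt h1 hi1 h),
      fun h => h4 (hx.inj_lt h1 hi2 h)⟩
  have hinj : Set.InjOn τ I := by
    intro j hj j' hj' h
    have h1 := cross_inj n01 n02 n12 (hne j hj).2.2 (hne j' hj').2.2 h
    exact hx.inj_lt (hI j hj).1 (hI j' hj').1 h1
  -- the exceptional values
  have hsplit : I.card = (I.filter fun j => τ j ∈ E).card + (I.filter fun j => ¬ τ j ∈ E).card :=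
    (Finset.card_filter_add_card_filter_not _).symm
  have hE1 : (I.filter fun j => τ j ∈ E).card ≤ E.card := by
    refine Finset.card_le_card_of_injOn τ (fun j hj => (Finset.mem_filter.1 hj).2) ?_
    intro a ha b hb hab
    exact hinj (Finset.mem_filter.1 ha).1 (Finset.mem_filter.1 hb).1 hab
  have hE2 : ((I.filter fun j => ¬ τ j ∈ E).image x).card = (I.filter fun j => ¬ τ j ∈ E).card := by
    refine Finset.card_image_of_injOn ?_
    intro a ha b hb hab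
    exact hx.inj_lt (hI a (Finset.mem_filter.1 ha).1).1 (hI b (Finset.mem_filter.1 hb).1).1 hab
  have key := hC c N x hx i₀ i₁ i₂ ((I.filter fun j => ¬ τ j ∈ E).image x) n01 n02 n12 ?_
  · omega
  · intro t ht
    obtain ⟨j, hj, rfl⟩ := Finset.mem_image.1 ht
    obtain ⟨hjI, hjE⟩ := Finset.mem_filter.1 hj
    obtain ⟨m0, m1, m2⟩ := hne j hjI
    obtain ⟨hjN, _, _, _, g0, g2, g1⟩ := hI j hjI
    refine ⟨⟨j, rfl⟩, m0, m1, m2, ?_⟩
    have hT0 : τ j ≠ 0 := div_ne_zero (mul_ne_zero (sub_ne_zero.2 m0) (sub_ne_zero.2 n12))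
      (mul_ne_zero (sub_ne_zero.2 m2) (sub_ne_zero.2 n01))
    have hT1 : 1 - τ j ≠ 0 := by
      simp only [hτ]
      rw [one_sub_cross n01 m2]
      exact div_ne_zero (mul_ne_zero (sub_ne_zero.2 m1) (sub_ne_zero.2 n02))
        (mul_ne_zero (sub_ne_zero.2 m2) (sub_ne_zero.2 n01.symm))
    have hboth : ∀ v : FinitePlace K, v ∉ S → (∃ b : K, b ≠ 0 ∧ v (τ j) = v b ^ (g.natDegree + 1)) ∧
        ∃ b : K, b ≠ 0 ∧ v (1 - τ j) = v b ^ 2 := by
      intro v hv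
      obtain ⟨h1, h2, h3⟩ := hS v hv
      simp only [hτ]
      rw [one_sub_cross n01 m2]
      rcases le_or_gt (v c) 1 with hc | hc
      · -- good reduction
        obtain ⟨D', hD'0, hD'⟩ := good_dist v.val (fin_nonarch v) hx h1 h2 hc rfl (by omega)
        have hch := ch_gg (v := v.val) (x := x) (N := N) hD'
        have hpos : ∀ {a b : ℕ}, x a ≠ x b → 0 < ch v.val (x a) (x b) := by
          intro a b hab
          exact div_pos (v.val.pos (sub_ne_zero.2 hab)) (mul_pos (max_pos _ _) (max_pos _ _))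
        obtain ⟨b₁, hb₁, hb₁'⟩ := exists_ch v.val n02
        obtain ⟨b₂, hb₂, hb₂'⟩ := exists_ch v.val n01
        refine ⟨⟨1, one_ne_zero, ?_⟩, ⟨b₁ / b₂, div_ne_zero hb₁ hb₂, ?_⟩⟩
        · have e1 : v.val ((x j - x i₀) * (x i₁ - x i₂) / ((x j - x i₂) * (x i₁ - x i₀))) = 1 := by
            rw [v_cross, hch j i₀, hch i₁ i₂, hch j i₂, hch i₁ i₀, g0, g2, hgg]
            have p1 := hpos n01
            rw [hch] at p1
            exact div_self (mul_pos p1 p1).ne'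
          rw [map_one, one_pow]
          exact e1
        · have e1 : v.val ((x j - x i₁) * (x i₀ - x i₂) / ((x j - x i₂) * (x i₀ - x i₁))) =
              v.val (b₁ / b₂) ^ 2 := by
            rw [v_cross, map_div₀, hb₁', hb₂', ch_comm v.val (x i₀) (x i₁), hch j i₁, hch i₀ i₂,
              hch j i₂, hch i₁ i₀, g1, g2, div_pow, sq, sq]
          exact e1
      · -- bad reduction
        obtain ⟨_, htr⟩ := bad_tree v.val (fin_nonarch v) hx hN2 h1 h2 h3 hc rfl (by omega)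
        have he : (x 0)⁻¹ ≠ 0 := inv_ne_zero (hx.ne_zero 0)
        refine ⟨tree_pow v.val htr he rfl ⟨i₀, rfl⟩ ⟨i₁, rfl⟩ ⟨i₂, rfl⟩ ⟨j, rfl⟩ n01 n12 m0 m2, ?_⟩
        obtain ⟨b, hb, hb'⟩ := tree_pow v.val htr he rfl ⟨i₁, rfl⟩ ⟨i₀, rfl⟩ ⟨i₂, rfl⟩ ⟨j, rfl⟩
          n01.symm n02 m1 m2
        obtain ⟨a, ha⟩ := hev
        refine ⟨b ^ a, pow_ne_zero _ hb, ?_⟩
        have hb'' : v ((x j - x i₁) * (x i₀ - x i₂) / ((x j - x i₂) * (x i₀ - x i₁))) =
          v b ^ (g.natDegree + 1) := hb'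
        rw [hb'', ha, map_pow, ← pow_mul]
        congr 1
        ring
    exact hE (τ j) hT0 (fun h => hT1 (by rw [h, sub_self])) hjE (fun v hv => (hboth v hv).1)
      (fun v hv => (hboth v hv).2)

end Pool.Agent.MP90787a.R
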