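import Pool.Agent.Lib.MP_90787a_nt.R.Cycles

set_option autoImplicit false

/-!
Bounds for the lengths of the cycles of the maps `g (1 / z) + c` in `K ∖ {0}`.
-/

namespace Pool.Agent.MP90787a.R

open Finset Polynomial NumberField Height Pool.Agent.UBC90787a
open Pool.Agent.MP90787a.G.Cycles (le_factorial)

lemma gg_mul (q M a b : ℕ) : gg (q * M) (q * a) (q * b) = q * Nat.gcd (Nat.dist a b) M := by
  rw [gg, Nat.dist_mul_left, Nat.gcd_mul_left]

lemma gg_cop {q M a b : ℕ} (h : Nat.Coprime (Nat.dist a b) M) :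
    gg (q * M) (q * a) (q * b) = q := by
  rw [gg_mul, h, mul_one]

section tri

variable {K : Type} [Field K] [NumberField K] {g : K[X]} {C : ℕ}

/-- The property proved in `core_tri`. -/
def TriBound (g : K[X]) (C : ℕ) : Prop :=
  ∀ (c : K) (N : ℕ) (x : ℕ → K), Cyc g c N x → ∀ (i₀ i₁ i₂ : ℕ) (I : Finset ℕ),
      i₀ < N → i₁ < N → i₂ < N → i₀ ≠ i₁ → i₀ ≠ i₂ → i₁ ≠ i₂ →
      gg N i₀ i₂ = gg N i₁ i₂ →
      (∀ j ∈ I, j < N ∧ j ≠ i₀ ∧ j ≠ i₁ ∧ j ≠ i₂ ∧ gg N j i₀ = gg N i₁ i₀ ∧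
        gg N j i₁ = gg N i₁ i₀ ∧ gg N j i₂ = gg N i₁ i₂) → I.card ≤ C

/-- Four pairwise coprime indices. -/
lemma tri_count (hC : TriBound g C) {c : K} {N : ℕ} {x : ℕ → K} (hx : Cyc g c N x) {q M : ℕ}
    (hM : 3 ≤ M) (hqM : N = q * M) (h1 : Nat.Coprime 1 M) (h2 : Nat.Coprime 2 M) (I : Finset ℕ)
    (hI : ∀ l ∈ I, 3 ≤ l ∧ l < M ∧ Nat.Coprime l M ∧ Nat.Coprime (l - 1) M ∧
      Nat.Coprime (l - 2) M) : I.card ≤ C := by
  classical
  subst hqM
  have hN0 : 0 < q * M := hx.pos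
  have hq0 : 0 < q := Nat.pos_of_mul_pos_right hN0
  have hlt : ∀ i, i < M → q * i < q * M := fun i hi => Nat.mul_lt_mul_of_pos_left hi hq0
  have hne : ∀ {i j : ℕ}, i ≠ j → q * i ≠ q * j := fun h h' => h (Nat.eq_of_mul_eq_mul_left hq0 h')
  have key := hC c (q * M) x hx (q * 0) (q * 1) (q * 2) (I.image fun l => q * l)
    (hlt 0 (by omega)) (hlt 1 (by omega)) (hlt 2 (by omega)) (hne (by omega)) (hne (by omega))
    (hne (by omega)) (by
      rw [gg_cop, gg_cop]
      · simpa [Nat.dist] using h1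
      · simpa [Nat.dist] using h2) ?_
  · rwa [Finset.card_image_of_injective] at key
    intro a b hab
    exact Nat.eq_of_mul_eq_mul_left hq0 hab
  · intro j hj
    obtain ⟨l, hl, rfl⟩ := Finset.mem_image.1 hj
    obtain ⟨hl3, hlM, c0, c1, c2⟩ := hI l hl
    refine ⟨hlt l hlM, hne (by omega), hne (by omega), hne (by omega), ?_, ?_, ?_⟩
    · rw [gg_cop, gg_cop]
      · simpa [Nat.dist] using h1
      · rw [Nat.dist_comm, Nat.dist_eq_sub_of_le (by omega), Nat.sub_zero]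
        exact c0
    · rw [gg_cop, gg_cop]
      · simpa [Nat.dist] using h1
      · rw [Nat.dist_comm, Nat.dist_eq_sub_of_le (by omega)]
        exact c1
    · rw [gg_cop, gg_cop]
      · simpa [Nat.dist] using h1
      · rw [Nat.dist_comm, Nat.dist_eq_sub_of_le (by omega)]
        exact c2

/-- Powers of primes `p ≥ 5` dividing the length. -/
lemma big_prime_pow (hC : TriBound g C) {c : K} {N : ℕ} {x : ℕ → K} (hx : Cyc g c N x) {p e : ℕ}
    (hp : p.Prime) (hp5 : 5 ≤ p) (he : 1 ≤ e) (hdvd : p ^ e ∣ N) : p ^ e ≤ C * (C + 3) := by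
  classical
  obtain ⟨e', rfl⟩ : ∃ e', e = e' + 1 := ⟨e - 1, by omega⟩
  have hpow : 1 ≤ p ^ e' := Nat.one_le_pow _ _ hp.pos
  have h1 : p ^ e' ≤ C := by
    obtain ⟨q, hq⟩ := hdvd
    have hcop : ∀ a, ¬ p ∣ a → Nat.Coprime a (p ^ (e' + 1)) := fun a ha =>
      Nat.Coprime.pow_right _ ((Nat.Prime.coprime_iff_not_dvd hp).2 ha).symm
    have hsmall : ∀ a, 1 ≤ a → a < p → ¬ p ∣ a := fun a h1 h2 h => by
      have := Nat.le_of_dvd (by omega) h
      omega
    have := tri_count hC hx (q := q) (M := p ^ (e' + 1))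
      (by
        rw [pow_succ]
        nlinarith) (by rw [hq, mul_comm]) (hcop 1 (hsmall 1 (by omega) (by omega)))
      (hcop 2 (hsmall 2 (by omega) (by omega)))
      ((Finset.range (p ^ e')).image fun k => 3 + p * k) (by
        intro l hl
        obtain ⟨k, hk, rfl⟩ := Finset.mem_image.1 hl
        have hk' := Finset.mem_range.1 hk
        refine ⟨by omega, ?_, hcop _ ?_, hcop _ ?_, hcop _ ?_⟩
        · have h2 : p * (k + 1) ≤ p * p ^ e' := Nat.mul_le_mul_left _ hk'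
          rw [pow_succ]
          have h3 : p * (k + 1) = p * k + p := by ring
          rw [mul_comm (p ^ e') p]
          omega
        · intro h
          exact hsmall 3 (by omega) (by omega) ((Nat.dvd_add_left (dvd_mul_right p k)).1 h)
        · intro h
          have e1 : 3 + p * k - 1 = 2 + p * k := by omega
          rw [e1] at h
          exact hsmall 2 (by omega) (by omega) ((Nat.dvd_add_left (dvd_mul_right p k)).1 h)
        · intro h
          have e1 : 3 + p * k - 2 = 1 + p * k := by omega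
          rw [e1] at h
          exact hsmall 1 (by omega) (by omega) ((Nat.dvd_add_left (dvd_mul_right p k)).1 h))
    rwa [Finset.card_image_of_injOn, Finset.card_range] at this
    intro a _ b _ hab
    have hab' : 3 + p * a = 3 + p * b := hab
    exact Nat.eq_of_mul_eq_mul_left hp.pos (by omega)
  have h2 : p - 3 ≤ C := by
    obtain ⟨q, hq⟩ := (dvd_pow_self p (Nat.succ_ne_zero e')).trans hdvd
    have hcop : ∀ a, 1 ≤ a → a < p → Nat.Coprime a p := fun a h1 h2 =>
      ((Nat.Prime.coprime_iff_not_dvd hp).2 fun h => by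
        have := Nat.le_of_dvd (by omega) h
        omega).symm
    have := tri_count hC hx (q := q) (M := p) (by omega) (by rw [hq, mul_comm])
      (hcop 1 (by omega) (by omega)) (hcop 2 (by omega) (by omega)) (Finset.Ico 3 p) (by
        intro l hl
        rw [Finset.mem_Ico] at hl
        exact ⟨hl.1, hl.2, hcop _ (by omega) hl.2, hcop _ (by omega) (by omega),
          hcop _ (by omega) (by omega)⟩)
    rwa [Nat.card_Ico] at this
  calc p ^ (e' + 1) = p ^ e' * p := pow_succ _ _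
    _ ≤ C * (C + 3) := Nat.mul_le_mul h1 (by omega)

/-- Powers of three dividing the length. -/
lemma three_pow (hC : TriBound g C) {c : K} {N : ℕ} {x : ℕ → K} (hx : Cyc g c N x) {e : ℕ}
    (hdvd : 3 ^ e ∣ N) : 3 ^ e ≤ 9 * C + 3 := by
  classical
  rcases Nat.lt_or_ge e 2 with he | he
  · have : 3 ^ e ≤ 3 ^ 1 := Nat.pow_le_pow_right (by norm_num) (by omega)
    omega
  obtain ⟨e', rfl⟩ : ∃ e', e = e' + 2 := ⟨e - 2, by omega⟩
  obtain ⟨q, hq⟩ := hdvd
  set M : ℕ := 3 ^ (e' + 2) with hMdef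
  have hM9 : M = 9 * 3 ^ e' := by
    rw [hMdef, pow_add]
    ring
  have hpow : 1 ≤ 3 ^ e' := Nat.one_le_pow _ _ (by norm_num)
  have hqM : N = q * M := by rw [hq, mul_comm]
  subst hqM
  have hN0 : 0 < q * M := hx.pos
  have hq0 : 0 < q := Nat.pos_of_mul_pos_right hN0
  have hlt : ∀ i, i < M → q * i < q * M := fun i hi => Nat.mul_lt_mul_of_pos_left hi hq0
  have hne : ∀ {i j : ℕ}, i ≠ j → q * i ≠ q * j := fun h h' => h (Nat.eq_of_mul_eq_mul_left hq0 h')
  have hone : ∀ a b, ¬ 3 ∣ Nat.dist a b → gg (q * M) (q * a) (q * b) = q := by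
    intro a b hab
    exact gg_cop (Nat.Coprime.pow_right _ ((Nat.Prime.coprime_iff_not_dvd Nat.prime_three).2
      hab).symm)
  have hthree : ∀ a b t, Nat.dist a b = 3 * t → ¬ 3 ∣ t → gg (q * M) (q * a) (q * b) = q * 3 := by
    intro a b t hab ht
    rw [gg_mul, hab]
    congr 1
    have e1 : M = 3 * 3 ^ (e' + 1) := by
      rw [hMdef, pow_succ]
      ring
    rw [e1, Nat.gcd_mul_left]
    have : Nat.gcd t (3 ^ (e' + 1)) = 1 :=
      Nat.Coprime.pow_right _ ((Nat.Prime.coprime_iff_not_dvd Nat.prime_three).2 ht).symm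
    rw [this]
  have key := hC c (q * M) x hx (q * 0) (q * 3) (q * 1)
    ((Finset.range (3 ^ e')).image fun k => q * (6 + 9 * k))
    (hlt 0 (by omega)) (hlt 3 (by omega)) (hlt 1 (by omega)) (hne (by omega)) (hne (by omega))
    (hne (by omega)) (by
      rw [hone 0 1 (by simp [Nat.dist]), hone 3 1 (by simp [Nat.dist])]) ?_
  · rw [Finset.card_image_of_injective, Finset.card_range] at key
    · omega
    intro a b hab
    have hab' : q * (6 + 9 * a) = q * (6 + 9 * b) := hab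
    have := Nat.eq_of_mul_eq_mul_left hq0 hab'
    omega
  · intro j hj
    obtain ⟨k, hk, rfl⟩ := Finset.mem_image.1 hj
    have hk' := Finset.mem_range.1 hk
    have d0 : Nat.dist (6 + 9 * k) 0 = 3 * (2 + 3 * k) := by
      rw [Nat.dist_comm, Nat.dist_eq_sub_of_le (by omega)]
      omega
    have d1 : Nat.dist (6 + 9 * k) 3 = 3 * (1 + 3 * k) := by
      rw [Nat.dist_comm, Nat.dist_eq_sub_of_le (by omega)]
      omega
    have d2 : Nat.dist (6 + 9 * k) 1 = 5 + 9 * k := by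
      rw [Nat.dist_comm, Nat.dist_eq_sub_of_le (by omega)]
      omega
    have d3 : Nat.dist 3 0 = 3 * 1 := by simp [Nat.dist]
    have n1 : ¬ 3 ∣ 2 + 3 * k := by omega
    have n2 : ¬ 3 ∣ 1 + 3 * k := by omega
    have n3 : ¬ 3 ∣ 5 + 9 * k := by omega
    have n4 : ¬ 3 ∣ 1 := by omega
    refine ⟨hlt _ (by omega), hne (by omega), hne (by omega), hne (by omega), ?_, ?_, ?_⟩
    · rw [hthree _ _ _ d0 n1, hthree _ _ _ d3 n4]
    · rw [hthree _ _ _ d1 n2, hthree _ _ _ d3 n4]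
    · rw [hone _ _ (by rw [d2]; exact n3), hone 3 1 (by simp [Nat.dist])]

/-- The property proved in `core_two`. -/
def TwoBound (g : K[X]) (C : ℕ) : Prop :=
  ∀ (c : K) (N : ℕ) (x : ℕ → K), Cyc g c N x → ∀ (i₀ i₁ i₂ : ℕ) (I : Finset ℕ),
      i₀ < N → i₁ < N → i₂ < N → i₀ ≠ i₁ → i₀ ≠ i₂ → i₁ ≠ i₂ →
      gg N i₁ i₂ = gg N i₁ i₀ →
      (∀ j ∈ I, j < N ∧ j ≠ i₀ ∧ j ≠ i₁ ∧ j ≠ i₂ ∧ gg N j i₀ = gg N i₁ i₀ ∧
        gg N j i₂ = gg N i₁ i₀ ∧ gg N j i₁ = gg N i₀ i₂) → I.card ≤ C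

/-- Powers of two dividing the length. -/
lemma two_pow (hC : TwoBound g C) {c : K} {N : ℕ} {x : ℕ → K} (hx : Cyc g c N x) {e : ℕ}
    (hdvd : 2 ^ e ∣ N) : 2 ^ e ≤ 4 * C + 2 := by
  classical
  rcases Nat.lt_or_ge e 2 with he | he
  · have : 2 ^ e ≤ 2 ^ 1 := Nat.pow_le_pow_right (by norm_num) (by omega)
    omega
  obtain ⟨e', rfl⟩ : ∃ e', e = e' + 2 := ⟨e - 2, by omega⟩
  obtain ⟨q, hq⟩ := hdvd
  set M : ℕ := 2 ^ (e' + 2) with hMdef
  have hM4 : M = 4 * 2 ^ e' := by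
    rw [hMdef, pow_add]
    ring
  have hpow : 1 ≤ 2 ^ e' := Nat.one_le_pow _ _ (by norm_num)
  have hqM : N = q * M := by rw [hq, mul_comm]
  subst hqM
  have hN0 : 0 < q * M := hx.pos
  have hq0 : 0 < q := Nat.pos_of_mul_pos_right hN0
  have hlt : ∀ i, i < M → q * i < q * M := fun i hi => Nat.mul_lt_mul_of_pos_left hi hq0
  have hne : ∀ {i j : ℕ}, i ≠ j → q * i ≠ q * j := fun h h' => h (Nat.eq_of_mul_eq_mul_left hq0 h')
  have hone : ∀ a b, ¬ 2 ∣ Nat.dist a b → gg (q * M) (q * a) (q * b) = q := by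
    intro a b hab
    exact gg_cop (Nat.Coprime.pow_right _ ((Nat.Prime.coprime_iff_not_dvd Nat.prime_two).2
      hab).symm)
  have htwo : ∀ a b t, Nat.dist a b = 2 * t → ¬ 2 ∣ t → gg (q * M) (q * a) (q * b) = q * 2 := by
    intro a b t hab ht
    rw [gg_mul, hab]
    congr 1
    have e1 : M = 2 * 2 ^ (e' + 1) := by
      rw [hMdef, pow_succ]
      ring
    rw [e1, Nat.gcd_mul_left]
    have : Nat.gcd t (2 ^ (e' + 1)) = 1 :=
      Nat.Coprime.pow_right _ ((Nat.Prime.coprime_iff_not_dvd Nat.prime_two).2 ht).symm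
    rw [this]
  have o12 : gg (q * M) (q * 1) (q * 2) = q := hone 1 2 (by simp [Nat.dist])
  have o10 : gg (q * M) (q * 1) (q * 0) = q := hone 1 0 (by simp [Nat.dist])
  have key := hC c (q * M) x hx (q * 0) (q * 1) (q * 2)
    ((Finset.range (2 ^ e')).image fun k => q * (3 + 4 * k))
    (hlt 0 (by omega)) (hlt 1 (by omega)) (hlt 2 (by omega)) (hne (by omega)) (hne (by omega))
    (hne (by omega)) (by rw [o12, o10]) ?_
  · rw [Finset.card_image_of_injective, Finset.card_range] at key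
    · omega
    intro a b hab
    have hab' : q * (3 + 4 * a) = q * (3 + 4 * b) := hab
    have := Nat.eq_of_mul_eq_mul_left hq0 hab'
    omega
  · intro j hj
    obtain ⟨k, hk, rfl⟩ := Finset.mem_image.1 hj
    have hk' := Finset.mem_range.1 hk
    have d0 : Nat.dist (3 + 4 * k) 0 = 3 + 4 * k := by
      rw [Nat.dist_comm, Nat.dist_eq_sub_of_le (by omega)]
      omega
    have d1 : Nat.dist (3 + 4 * k) 1 = 2 * (1 + 2 * k) := by
      rw [Nat.dist_comm, Nat.dist_eq_sub_of_le (by omega)]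
      omega
    have d2 : Nat.dist (3 + 4 * k) 2 = 1 + 4 * k := by
      rw [Nat.dist_comm, Nat.dist_eq_sub_of_le (by omega)]
      omega
    have d3 : Nat.dist 0 2 = 2 * 1 := by simp [Nat.dist]
    refine ⟨hlt _ (by omega), hne (by omega), hne (by omega), hne (by omega), ?_, ?_, ?_⟩
    · rw [o10, hone _ _ (by rw [d0]; omega)]
    · rw [o10, hone _ _ (by rw [d2]; omega)]
    · rw [htwo _ _ _ d1 (by omega), htwo _ _ _ d3 (by omega)]

end tri

/-- Bounds for the lengths of the cycles in `K ∖ {0}`. -/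
theorem cyc_bound (K : Type) [Field K] [NumberField K] (g : K[X]) (hd : 2 ≤ g.natDegree) :
    ∃ B : ℕ, ∀ (c : K) (N : ℕ) (x : ℕ → K), Cyc g c N x →
      (∀ k : ℕ, Odd k → k ∣ N → k ≤ B) ∧ (Odd g.natDegree → N ≤ B) := by
  obtain ⟨C, hC⟩ := core_tri K g hd
  have hC' : TriBound g C := hC
  obtain ⟨C₂, hC₂⟩ : ∃ C₂ : ℕ, Odd g.natDegree → TwoBound g C₂ := by
    by_cases hodd : Odd g.natDegree
    · obtain ⟨C₂, hC₂⟩ := core_two K g hd hodd
      exact ⟨C₂, fun _ => hC₂⟩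
    · exact ⟨0, fun h => absurd h hodd⟩
  set B₀ : ℕ := max (max (C * (C + 3)) (9 * C + 3)) (4 * C₂ + 2) with hB₀
  have hodd' : ∀ (c : K) (N : ℕ) (x : ℕ → K), Cyc g c N x → ∀ p e : ℕ, p.Prime → p ≠ 2 → 1 ≤ e →
      p ^ e ∣ N → p ^ e ≤ B₀ := by
    intro c N x hx p e hp hp2 he hpe
    rcases Nat.lt_or_ge p 5 with h5 | h5
    · have hp3 : p = 3 := by
        have := hp.two_le
        have h4 : p ≠ 4 := by
          rintro rfl
          exact absurd hp (by norm_num)
        omega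
      subst hp3
      exact (three_pow hC' hx hpe).trans ((le_max_right _ _).trans (le_max_left _ _))
    · exact (big_prime_pow hC' hx hp h5 he hpe).trans ((le_max_left _ _).trans (le_max_left _ _))
  refine ⟨B₀.factorial, fun c N x hx => ⟨fun k hk hkN => ?_, fun hodd => ?_⟩⟩
  · refine le_factorial fun p e hp he hpe => ?_
    refine hodd' c N x hx p e hp ?_ he (hpe.trans hkN)
    rintro rfl
    have h1 : 2 ∣ k := (dvd_pow_self 2 (by omega)).trans hpe
    exact (Nat.not_even_iff_odd.2 hk) (even_iff_two_dvd.2 h1)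
  · refine le_factorial fun p e hp he hpe => ?_
    by_cases hp2 : p = 2
    · subst hp2
      exact (two_pow (hC₂ hodd) hx hpe).trans (le_max_right _ _)
    · exact hodd' c N x hx p e hp hp2 he hpe

end Pool.Agent.MP90787a.R
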